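import Pool.Agent.Lib.MP_305fdd_al.Fr.X.GG

/-!
# MP_305fdd_al: abstract Lemma X

`LX ρ` is the statement of Lemma X for the representation `ρ`; the forms `sub` and `adm` follow
from it without any further hypothesis on `Γ`.
-/

set_option autoImplicit false
set_option linter.unusedSectionVars false
set_option linter.unusedVariables false

namespace Pool.Agent.SuX

open Pool.Agent.FrN Pool.Agent.FrS Pool.Agent.FrX

/-- Lemma X for `ρ`: an abelian vertex group `G x` of a splitting has no nontrivial homomorphism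
`lam` to `ℤ` which is trivial on all edge groups at `x` and whose kernel contains an element `m`
with `ρ m ≠ 1`. -/
def LX {Γ F : Type} [Group Γ] [Field F] (ρ : Γ →* Matrix.SpecialLinearGroup (Fin 2) F) : Prop :=
  ∀ (S : GG Γ), S.UP → (∀ v, (S.G v).FG) → (∀ e, (S.C e).FG) →
    ∀ (x : S.V), (∀ y ∈ S.G x, ∀ z ∈ S.G x, y * z = z * y) →
    ∀ (lam : S.G x →* Multiplicative ℤ) (x1 : S.G x), lam x1 ≠ 1 →
    (∀ e, S.a e = x → ∀ c ∈ S.C e, ∀ h : c ∈ S.G x, lam ⟨c, h⟩ = 1) →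
    (∀ e, S.b e = x → ∀ c ∈ S.C e, ∀ h : (S.s e)⁻¹ * c * S.s e ∈ S.G x,
      lam ⟨(S.s e)⁻¹ * c * S.s e, h⟩ = 1) →
    ∀ (m : S.G x), lam m = 1 → ρ m ≠ 1 → False

/-- Lemma X for the free class -/
theorem LX_of_HB {b : ℕ} {Γ K F : Type} [Group Γ] [Field K] [Field F] [Algebra (ZMod 2) K]
    [Algebra (ZMod 2) F] [Algebra K F] {T : Γ → K}
    {ρ : Γ →* Matrix.SpecialLinearGroup (Fin 2) F} (h : HB 2 b Γ K F T ρ) : LX ρ :=
  fun S hS hV hE x hc lam x1 h1 ha hb m hm hm1 =>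
    lemX_hom h S hS hV hE x hc lam x1 h1 ha hb m hm hm1

variable {Γ F : Type} [Group Γ] [Field F] {ρ : Γ →* Matrix.SpecialLinearGroup (Fin 2) F}

/-- LEMMA X: an abelian vertex group `G x` is of finite index over every subgroup `N` which contains
all edge groups at `x`, if `N` contains an element `m` with `ρ m ≠ 1`. -/
theorem LX.sub (h : LX ρ) (S : GG Γ) (hS : S.UP) (hfgV : ∀ v, (S.G v).FG)
    (hfgE : ∀ e, (S.C e).FG) (x : S.V) (hcomm : ∀ y ∈ S.G x, ∀ z ∈ S.G x, y * z = z * y)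
    (N : Subgroup Γ) (hN : N ≤ S.G x)
    (ha : ∀ e, S.a e = x → ∀ c ∈ S.C e, c ∈ N)
    (hb : ∀ e, S.b e = x → ∀ c ∈ S.C e, (S.s e)⁻¹ * c * S.s e ∈ N)
    (m : Γ) (hm : m ∈ N) (hm1 : ρ m ≠ 1) :
    (N.subgroupOf (S.G x)).FiniteIndex ∧ ∀ y ∈ S.G x, ∃ n : ℕ, 0 < n ∧ y ^ n ∈ N := by
  letI : CommGroup (S.G x) := { (inferInstance : Group (S.G x)) with
    mul_comm := fun y z => Subtype.ext (hcomm _ y.2 _ z.2) }
  have hfg : Group.FG (S.G x) := (Group.fg_iff_subgroup_fg _).2 (hfgV x)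
  have key : ∀ y : S.G x, ∃ n : ℕ, 0 < n ∧ y ^ n ∈ N.subgroupOf (S.G x) := by
    intro y
    by_contra hy
    push Not at hy
    obtain ⟨lam, h1, h2⟩ := exists_hom_int (N.subgroupOf (S.G x)) y hy
    exact h S hS hfgV hfgE x hcomm lam y h2
      (fun e he c hc h3 => h1 _ (ha e he c hc)) (fun e he c hc h3 => h1 _ (hb e he c hc))
      ⟨m, hN hm⟩ (h1 _ hm) hm1
  refine ⟨?_, fun y hy => ?_⟩
  · have ht : IsMulTorsion (S.G x ⧸ N.subgroupOf (S.G x)) := by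
      intro z
      obtain ⟨y, rfl⟩ := QuotientGroup.mk_surjective z
      obtain ⟨n, hn, hy⟩ := key y
      refine isOfFinOrder_iff_pow_eq_one.2 ⟨n, hn, ?_⟩
      rw [← QuotientGroup.mk_pow]
      exact (QuotientGroup.eq_one_iff _).2 hy
    have hfin : Finite (S.G x ⧸ N.subgroupOf (S.G x)) := CommGroup.finite_of_fg_isMulTorsion _ ht
    exact Subgroup.finiteIndex_of_finite_quotient
  · obtain ⟨n, hn, h1⟩ := key ⟨y, hy⟩
    exact ⟨n, hn, h1⟩

/-- LEMMA X for admissible splittings: at an abelian vertex `x` the edge groups generate a subgroup of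
finite index of `G x`. -/
theorem LX.adm (h : LX ρ) (hinj : Function.Injective ρ)
    (hnc : ∃ y z : Γ, y * z ≠ z * y) (S : GG Γ) (hS : S.Adm) (x : S.V) (hx : ¬ S.NA x) :
    ((EG S x).subgroupOf (S.G x)).FiniteIndex ∧ ∀ y ∈ S.G x, ∃ n : ℕ, 0 < n ∧ y ^ n ∈ EG S x := by
  have hcomm : ∀ y ∈ S.G x, ∀ z ∈ S.G x, y * z = z * y := by
    by_contra h1
    exact hx h1
  have hle : EG S x ≤ S.G x := by
    rw [EG, Subgroup.closure_le]
    rintro c ⟨e, ⟨rfl, hc⟩ | ⟨rfl, d, hd, rfl⟩⟩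
    · exact S.Ca e hc
    · exact S.Cb e d hd
  -- there is an edge at `x`
  have hedge : ∃ e, S.a e = x ∨ S.b e = x := by
    by_contra hno
    push Not at hno
    have key : ∀ {w g}, S.Pth x w g → w = x ∧ g ∈ S.G x := by
      intro w g hp
      induction hp with
      | one => exact ⟨rfl, one_mem _⟩
      | grp _ hy ih =>
        obtain ⟨h1, h2⟩ := ih
        subst h1
        exact ⟨rfl, mul_mem h2 hy⟩
      | fwd e _ ih => exact absurd ih.1 (hno e).1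
      | bwd e _ ih => exact absurd ih.1 (hno e).2
    obtain ⟨y, z, hyz⟩ := hnc
    exact hyz (hcomm y (key (hS.gen x x y)).2 z (key (hS.gen x x z)).2)
  have hρ : ∀ c : Γ, c ≠ 1 → ρ c ≠ 1 := fun c hc h1 => hc (hinj (by rw [h1, map_one]))
  obtain ⟨m, hm, hm1⟩ : ∃ m ∈ EG S x, ρ m ≠ 1 := by
    obtain ⟨e, he⟩ := hedge
    obtain ⟨⟨c, hc⟩, hc1⟩ := Subgroup.ne_bot_iff_exists_ne_one.1 (hS.ne e)
    have hc2 : c ≠ 1 := fun h1 => hc1 (Subtype.ext h1)
    rcases he with he | he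
    · exact ⟨c, Subgroup.subset_closure ⟨e, Or.inl ⟨he, hc⟩⟩, hρ c hc2⟩
    · refine ⟨(S.s e)⁻¹ * c * S.s e, Subgroup.subset_closure ⟨e, Or.inr ⟨he, c, hc, rfl⟩⟩,
        hρ _ fun h1 => hc2 ?_⟩
      have h2 : c = S.s e * ((S.s e)⁻¹ * c * S.s e) * (S.s e)⁻¹ := by group
      rw [h2, h1]
      group
  exact LX.sub h S hS.toUP hS.fgV hS.fgE x hcomm _ hle
    (fun e he c hc => Subgroup.subset_closure ⟨e, Or.inl ⟨he, hc⟩⟩)
    (fun e he c hc => Subgroup.subset_closure ⟨e, Or.inr ⟨he, c, hc, rfl⟩⟩) m hm hm1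

end Pool.Agent.SuX
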