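import Pool.Agent.Lib.MP_305fdd_al.Su.X.Core

/-!
# MP_305fdd_al, closed surface groups: small facts about `SL_2(𝔽_2)`
-/

set_option autoImplicit false
set_option linter.unusedSectionVars false

namespace Pool.Agent.SuX

open Matrix

/-- an element of order two -/
def qu : Q1 := ⟨!![1, 1; 0, 1], by simp [Matrix.det_fin_two]⟩

/-- an element of order three -/
def qw : Q1 := ⟨!![0, 1; 1, 1], by decide⟩

/-- image of the translation part -/
def jW (v : ZMod 3) : Q1 := qw ^ v.val

/-- image of the linear part -/
def jE (q : ℤˣ) : Q1 := if q = 1 then 1 else qu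

theorem jJ_mul_aux : ∀ (v v' : ZMod 3) (q q' : ℤˣ),
    jW (v + q • v') * jE (q * q') = jW v * jE q * (jW v' * jE q') := by decide

theorem jJ_three_aux : ∀ (v : ZMod 3) (q : ℤˣ), (jW v * jE q) ^ 3 = 1 ↔ q = 1 := by decide

theorem jJ_inj_aux : ∀ (v v' : ZMod 3) (q q' : ℤˣ),
    jW v * jE q = jW v' * jE q' → v = v' ∧ q = q' := by decide

theorem inv_mul (a b : Q1) (ha : a * a = 1) (hb : b * b = 1) (hab : a * b = b * a) (ha1 : a ≠ 1)
    (hb1 : b ≠ 1) : a * b = 1 := by
  revert a b
  decide

/-- matrices of trace zero -/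
def TZ : Type := {M : Matrix (Fin 2) (Fin 2) (ZMod 2) // M 0 0 + M 1 1 = 0}

instance : AddCommGroup TZ :=
  inferInstanceAs (AddCommGroup ({ carrier := {M | M 0 0 + M 1 1 = 0}
                                   zero_mem' := by simp
                                   add_mem' := by
                                    intro a b ha hb
                                    simp only [Set.mem_ofPred_eq, Matrix.add_apply] at *
                                    linear_combination ha + hb
                                   neg_mem' := by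
                                    intro a ha
                                    simp only [Set.mem_ofPred_eq, Matrix.neg_apply] at *
                                    linear_combination -ha } :
    AddSubgroup (Matrix (Fin 2) (Fin 2) (ZMod 2))))

theorem TZ.coe_add (x y : TZ) : (x + y).1 = x.1 + y.1 := rfl

instance : Fintype TZ := inferInstanceAs (Fintype {M : Matrix (Fin 2) (Fin 2) (ZMod 2) //
  M 0 0 + M 1 1 = 0})

instance : DecidableEq TZ := inferInstanceAs (DecidableEq {M : Matrix (Fin 2) (Fin 2) (ZMod 2) //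
  M 0 0 + M 1 1 = 0})

theorem tz_conj (q : Q1) (x : TZ) : (q.1 * x.1 * (q⁻¹).1) 0 0 + (q.1 * x.1 * (q⁻¹).1) 1 1 = 0 := by
  revert q x
  decide

instance : DistribMulAction Q1 TZ where
  smul q x := ⟨q.1 * x.1 * (q⁻¹).1, tz_conj q x⟩
  one_smul x := by
    apply Subtype.ext
    show (1 : Q1).1 * x.1 * ((1 : Q1)⁻¹).1 = x.1
    rw [inv_one]
    show (1 : Matrix (Fin 2) (Fin 2) (ZMod 2)) * x.1 * 1 = x.1
    rw [one_mul, mul_one]
  mul_smul p q x := by
    apply Subtype.ext
    show (p * q).1 * x.1 * ((p * q)⁻¹).1 = p.1 * (q.1 * x.1 * (q⁻¹).1) * (p⁻¹).1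
    rw [_root_.mul_inv_rev]
    show (p.1 * q.1) * x.1 * ((q⁻¹).1 * (p⁻¹).1) = _
    simp only [mul_assoc]
  smul_zero q := by
    apply Subtype.ext
    show q.1 * (0 : Matrix (Fin 2) (Fin 2) (ZMod 2)) * (q⁻¹).1 = 0
    rw [mul_zero, zero_mul]
  smul_add q x y := by
    apply Subtype.ext
    show q.1 * (x.1 + y.1) * (q⁻¹).1 = q.1 * x.1 * (q⁻¹).1 + q.1 * y.1 * (q⁻¹).1
    rw [mul_add, add_mul]

theorem card_TZ : Nat.card TZ = 8 := by
  rw [Nat.card_eq_fintype_card]
  decide

theorem card_img (q : Q1) (hq : q ^ 3 = 1) (hq1 : q ≠ 1) :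
    (Finset.univ.image (fun x : TZ => x - q • x)).card = 4 := by
  revert q
  decide


end Pool.Agent.SuX
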