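import Pool.Agent.Lib.MP_305fdd_al.Su.X.GG
import Pool.Agent.Lib.MP_305fdd_al.Su.X.Dec
import Pool.Agent.Lib.MP_305fdd_al.Su.Dual.ZC

/-!
# MP_305fdd_al, closed surface groups: the two counts used in Lemma X
-/

set_option autoImplicit false
set_option linter.unusedSectionVars false

namespace Pool.Agent.SuX

open Pool.Agent.Lib.MP_305fdd_al Pool.Agent.MP_305fdd_al Pool.Agent.SurfCnt Pool.Agent.SuD
open Pool.Agent.FrN Pool.Agent.FrX Pool.Agent.FrNC Matrix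

/-! ## Characters of order three -/

section three

/-- the isomorphism of the affine group of `ZMod 3` with `SL_2(𝔽_2)` -/
def jJ : AF ℤˣ (ZMod 3) →* Q1 where
  toFun x := jW x.v * jE x.q
  map_one' := by decide
  map_mul' := by
    rintro ⟨v, q⟩ ⟨v', q'⟩
    exact jJ_mul_aux v v' q q'

theorem jJ_three (x : AF ℤˣ (ZMod 3)) : (jJ x) ^ 3 = 1 ↔ x.q = 1 := by
  exact jJ_three_aux x.v x.q

theorem jJ_inj : Function.Injective jJ := by
  rintro ⟨v, q⟩ ⟨v', q'⟩ he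
  obtain ⟨h1, h2⟩ := jJ_inj_aux v v' q q' he
  rw [h1, h2]

open Classical in
/-- the sign of a character of order two -/
noncomputable def sgn {Γ : Type} [Group Γ] (ε : Γ →* Q1) (h2 : ∀ γ, ε γ * ε γ = 1)
    (hc : ∀ γ δ, ε γ * ε δ = ε δ * ε γ) : Γ →* ℤˣ where
  toFun γ := if ε γ = 1 then 1 else -1
  map_one' := by rw [map_one, if_pos rfl]
  map_mul' γ δ := by
    rw [map_mul]
    by_cases h1 : ε γ = 1
    · rw [h1, one_mul, if_pos rfl, one_mul]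
    · by_cases h3 : ε δ = 1
      · rw [h3, mul_one, if_pos rfl, mul_one]
      · rw [if_neg h1, if_neg h3, if_pos (inv_mul _ _ (h2 γ) (h2 δ) (hc γ δ) h1 h3)]
        rfl

theorem sgn_eq {Γ : Type} [Group Γ] (ε : Γ →* Q1) (h2 : ∀ γ, ε γ * ε γ = 1)
    (hc : ∀ γ δ, ε γ * ε δ = ε δ * ε γ) (γ : Γ) : sgn ε h2 hc γ = 1 ↔ ε γ = 1 := by
  show (if ε γ = 1 then (1 : ℤˣ) else -1) = 1 ↔ _
  by_cases h : ε γ = 1
  · simp [h]
  · rw [if_neg h]
    simp only [h, iff_false]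
    decide

theorem count3 {g : ℕ} (hg : 1 ≤ g) {Γ : Type} [Group Γ] [Group.FG Γ] (Φ : NatBij Γ (SurfG g))
    (ε : Γ →* Q1) (h2 : ∀ γ, ε γ * ε γ = 1) (hc : ∀ γ δ, ε γ * ε δ = ε δ * ε γ) :
    3 ^ (2 * g - 1) ≤ Nat.card {r : Γ →* Q1 // ∀ γ, (r γ) ^ 3 = 1 ↔ ε γ = 1} := by
  have h1 := card_Crs Φ (sgn ε h2 hc) (ZMod 3)
  have hI : Nat.card (IP (ZMod 3) (sgn ε h2 hc).range) ≤ 3 := by
    exact (Nat.card_le_card_of_injective _ Subtype.val_injective).trans_eq (Nat.card_zmod 3)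
  rw [Nat.card_zmod] at h1
  have h4 : 3 ^ (2 * g) = 3 ^ (2 * g - 1) * 3 := by
    rw [← pow_succ]; congr 1; omega
  have h5 : 3 ^ (2 * g - 1) ≤ Nat.card (Crs (sgn ε h2 hc) (ZMod 3)) := by
    have h6 : 3 ^ (2 * g - 1) * 3 ≤ Nat.card (Crs (sgn ε h2 hc) (ZMod 3)) * 3 := by
      rw [← h4, ← h1]
      exact Nat.mul_le_mul_left _ hI
    omega
  refine h5.trans ?_
  have hfin : Finite (Γ →* Q1) := fin_hom
  refine Nat.card_le_card_of_injective (fun c : Crs (sgn ε h2 hc) (ZMod 3) =>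
    (⟨jJ.comp (Crs.hom c), fun γ => by
      rw [MonoidHom.comp_apply, jJ_three, ← sgn_eq ε h2 hc]
      rfl⟩ : {r : Γ →* Q1 // ∀ γ, (r γ) ^ 3 = 1 ↔ ε γ = 1})) ?_
  intro c c' he
  apply Subtype.ext
  funext γ
  have h6 : jJ (Crs.hom c γ) = jJ (Crs.hom c' γ) :=
    DFunLike.congr_fun (congrArg Subtype.val he) γ
  exact congrArg AF.v (jJ_inj h6)

end three

/-! ## Lifts to the dual numbers -/

section dual

/-- the matrix of the coefficients of `ε` -/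
def DD (s : Q2) : Matrix (Fin 2) (Fin 2) (ZMod 2) := fun i j => TrivSqZeroExt.snd (s.1 i j)

theorem DD_mul (s t : Q2) : DD (s * t) = (pr s).1 * DD t + DD s * (pr t).1 := by
  ext i j
  show TrivSqZeroExt.snd ((s.1 * t.1) i j) = _
  rw [Matrix.mul_apply, Fin.sum_univ_two, Matrix.add_apply, Matrix.mul_apply, Matrix.mul_apply,
    Fin.sum_univ_two, Fin.sum_univ_two]
  simp only [DD, pr_apply, TrivSqZeroExt.snd_add, TrivSqZeroExt.snd_mul, smul_eq_mul,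
    MulOpposite.smul_eq_mul_unop, MulOpposite.unop_op]
  ring

theorem DD_tz (s : Q2) : (DD s * ((pr s)⁻¹).1) 0 0 + (DD s * ((pr s)⁻¹).1) 1 1 = 0 := by
  have h1 : ((pr s)⁻¹).1 = !![(pr s).1 1 1, -(pr s).1 0 1; -(pr s).1 1 0, (pr s).1 0 0] := by
    rw [← Matrix.adjugate_fin_two]
    rfl
  have h2 := congrArg TrivSqZeroExt.snd s.2
  rw [Matrix.det_fin_two] at h2
  simp only [TrivSqZeroExt.snd_sub, TrivSqZeroExt.snd_mul, smul_eq_mul,
    MulOpposite.smul_eq_mul_unop, MulOpposite.unop_op, TrivSqZeroExt.snd_one] at h2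
  rw [h1, Matrix.mul_apply, Matrix.mul_apply, Fin.sum_univ_two, Fin.sum_univ_two]
  simp only [DD, pr_apply, Matrix.of_apply, Matrix.cons_val', Matrix.cons_val_zero,
    Matrix.cons_val_one, Matrix.cons_val_fin_one]
  linear_combination h2

/-- the crossed homomorphism of a lift -/
def dlc {Γ : Type} [Group Γ] (r : Γ →* Q1) (s : DL r) : Crs r TZ :=
  have hp : ∀ γ, pr (s.1 γ) = r γ := fun γ => pr_eq.1 (s.2 γ)
  ⟨fun γ => ⟨DD (s.1 γ) * ((r γ)⁻¹).1, by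
    rw [← hp]; exact DD_tz (s.1 γ)⟩, by
    rw [mem_Crs]
    intro γ δ
    apply Subtype.ext
    show DD (s.1 (γ * δ)) * ((r (γ * δ))⁻¹).1 =
      DD (s.1 γ) * ((r γ)⁻¹).1 + (r γ).1 * (DD (s.1 δ) * ((r δ)⁻¹).1) * ((r γ)⁻¹).1
    rw [map_mul, map_mul, DD_mul, hp, hp, _root_.mul_inv_rev]
    show _ * (((r δ)⁻¹).1 * ((r γ)⁻¹).1) = _
    have h1 : (r δ).1 * ((r δ)⁻¹).1 = 1 := by
      have h2 := congrArg Subtype.val (mul_inv_cancel (r δ))
      exact h2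
    calc ((r γ).1 * DD (s.1 δ) + DD (s.1 γ) * (r δ).1) * (((r δ)⁻¹).1 * ((r γ)⁻¹).1)
        = (r γ).1 * (DD (s.1 δ) * ((r δ)⁻¹).1) * ((r γ)⁻¹).1 +
          DD (s.1 γ) * ((r δ).1 * ((r δ)⁻¹).1) * ((r γ)⁻¹).1 := by
          simp only [add_mul, mul_assoc]
      _ = _ := by rw [h1, mul_one, add_comm]⟩

theorem dlc_inj {Γ : Type} [Group Γ] (r : Γ →* Q1) : Function.Injective (dlc r) := by
  intro s s' h
  apply Subtype.ext
  ext γ : 1
  have h1 : DD (s.1 γ) * ((r γ)⁻¹).1 = DD (s'.1 γ) * ((r γ)⁻¹).1 :=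
    congrArg Subtype.val (congrFun (congrArg Subtype.val h) γ)
  have h2 : ((r γ)⁻¹).1 * (r γ).1 = 1 := congrArg Subtype.val (inv_mul_cancel (r γ))
  have h3 := congrArg (fun M => M * (r γ).1) h1
  simp only [mul_assoc, h2, mul_one] at h3
  apply Subtype.ext
  ext1 i j
  refine TrivSqZeroExt.ext ?_ ?_
  · rw [s.2 γ i j, s'.2 γ i j]
  · exact congrFun (congrFun h3 i) j

theorem countD {g : ℕ} (hg : 1 ≤ g) {Γ : Type} [Group Γ] (Φ : NatBij Γ (SurfG g))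
    (r : Γ →* Q1) (hr : r ≠ 1) (h3 : ∀ γ, (r γ) ^ 3 = 1) : Nat.card (DL r) ≤ 2 ^ (6 * g - 2) := by
  have h1 := card_Crs Φ r TZ
  rw [card_TZ] at h1
  obtain ⟨γ, hγ⟩ : ∃ γ, r γ ≠ 1 := by
    by_contra h
    push Not at h
    exact hr (MonoidHom.ext h)
  have hI : 4 ≤ Nat.card (IP TZ r.range) := by
    have h4 := card_img (r γ) (h3 γ) hγ
    rw [← h4, ← Nat.card_eq_finsetCard]
    refine Nat.card_le_card_of_injective
      (fun x : {x // x ∈ Finset.univ.image (fun x : TZ => x - r γ • x)} =>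
        (⟨x.1, by
          obtain ⟨y, _, hy⟩ := Finset.mem_image.1 x.2
          rw [← hy]
          exact sub_mem_IP (MonoidHom.mem_range.2 ⟨γ, rfl⟩) y⟩ : IP TZ r.range)) ?_
    intro x y h
    exact Subtype.ext (congrArg (fun z : IP TZ r.range => z.1) h)
  have h8 : (8 : ℕ) ^ (2 * g) = 2 ^ (6 * g - 2) * 4 := by
    have e8 : (8 : ℕ) = 2 ^ 3 := by norm_num
    have e4 : (4 : ℕ) = 2 ^ 2 := by norm_num
    rw [e8, e4, ← pow_mul, ← pow_add]
    congr 1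
    omega
  have h5 : Nat.card (Crs r TZ) ≤ 2 ^ (6 * g - 2) := by
    have h6 : Nat.card (Crs r TZ) * 4 ≤ 2 ^ (6 * g - 2) * 4 := by
      rw [← h8, ← h1]
      exact Nat.mul_le_mul_left _ hI
    omega
  have hfin : Finite (Crs r TZ) := by
    apply Nat.finite_of_card_ne_zero
    intro h0
    rw [h0, zero_mul] at h1
    have : 0 < 8 ^ (2 * g) := by positivity
    omega
  exact (Nat.card_le_card_of_injective _ (dlc_inj r)).trans h5

end dual

/-- the data of Lemma X for a group with the same finite quotients as the closed surface group -/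
theorem XS_of {g : ℕ} (hg : 1 ≤ g) {Γ F : Type} [Group Γ] [Field F] [Algebra (ZMod 2) F]
    {ρ : Γ →* Matrix.SpecialLinearGroup (Fin 2) F} (Φ : NatBij Γ (SurfG g)) (fg : Group.FG Γ)
    (frac : Frc (OO 2 ρ)) (trF : Algebra.trdeg (ZMod 2) F + 3 = ((6 * g : ℕ) : Cardinal))
    (pts : ∀ r : Γ →* Q1, ∃ φ : OO 2 ρ →ₐ[ZMod 2] ZMod 2,
      ∀ g i j, φ ⟨(ρ g).1 i j, mem_OO ρ g i j⟩ = (r g).1 i j) : XS g Γ F ρ where
  fg := fg
  frac := frac
  trF := trF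
  pts := pts
  s3 := fun ε _ h2 hc => count3 hg Φ ε h2 hc
  dual := fun r hr h3 => countD hg Φ r hr h3

/-- LEMMA X for groups with the same finite quotients as a closed surface group of genus `g ≥ 2` -/
theorem LX_of {g : ℕ} (hg : 2 ≤ g) {Γ F : Type} [Group Γ] [Field F] [Algebra (ZMod 2) F]
    {ρ : Γ →* Matrix.SpecialLinearGroup (Fin 2) F} (Φ : NatBij Γ (SurfG g)) (fg : Group.FG Γ)
    (frac : Frc (OO 2 ρ)) (trF : Algebra.trdeg (ZMod 2) F + 3 = ((6 * g : ℕ) : Cardinal))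
    (pts : ∀ r : Γ →* Q1, ∃ φ : OO 2 ρ →ₐ[ZMod 2] ZMod 2,
      ∀ g i j, φ ⟨(ρ g).1 i j, mem_OO ρ g i j⟩ = (r g).1 i j) : LX ρ :=
  LX_of_XS hg (XS_of (by omega) Φ fg frac trF pts)

end Pool.Agent.SuX
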