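import Pool.Agent.Lib.MP_305fdd_al.Su.X.Cnt

/-!
# MP_305fdd_al, closed surface groups: Lemma X for a quotient of a group with the same finite
quotients as a closed surface group
-/

set_option autoImplicit false
set_option linter.unusedSectionVars false

namespace Pool.Agent.SuX

open Pool.Agent.Lib.MP_305fdd_al Pool.Agent.MP_305fdd_al Pool.Agent.SurfCnt Pool.Agent.SuD
open Pool.Agent.FrN Pool.Agent.FrX Pool.Agent.FrNC Matrix

/-- the data of Lemma X for a quotient `Γ` of `Λ`, such that the homomorphisms of `Λ` to `SL_2(𝔽_2)`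
factor through `Γ` -/
theorem XS_fac {g : ℕ} (hg : 1 ≤ g) {Λ Γ F : Type} [Group Λ] [Group.FG Λ] [Group Γ] [Field F]
    [Algebra (ZMod 2) F] {ρ : Γ →* Matrix.SpecialLinearGroup (Fin 2) F}
    (Φ : NatBij Λ (SurfG g)) (π : Λ →* Γ) (hπ : Function.Surjective π)
    (hfac : ∀ r : Λ →* Q1, ∃ r' : Γ →* Q1, r'.comp π = r)
    (frac : Frc (OO 2 ρ)) (trF : Algebra.trdeg (ZMod 2) F + 3 = ((6 * g : ℕ) : Cardinal))
    (pts : ∀ r : Γ →* Q1, ∃ φ : OO 2 ρ →ₐ[ZMod 2] ZMod 2,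
      ∀ g i j, φ ⟨(ρ g).1 i j, mem_OO ρ g i j⟩ = (r g).1 i j) : XS g Γ F ρ where
  fg := Group.fg_of_surjective hπ
  frac := frac
  trF := trF
  pts := pts
  s3 := by
    intro ε _ h2 hc
    have hΓ : Group.FG Γ := Group.fg_of_surjective hπ
    have hfin : Finite (Γ →* Q1) := fin_hom
    refine (count3 hg Φ (ε.comp π) (fun γ => h2 (π γ)) (fun γ δ => hc (π γ) (π δ))).trans ?_
    choose f hf using hfac
    refine Nat.card_le_card_of_injective
      (fun r : {r : Λ →* Q1 // ∀ γ, (r γ) ^ 3 = 1 ↔ (ε.comp π) γ = 1} =>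
        (⟨f r.1, fun γ => by
          obtain ⟨l, rfl⟩ := hπ γ
          have h1 : f r.1 (π l) = r.1 l := DFunLike.congr_fun (hf r.1) l
          rw [h1]
          exact r.2 l⟩ : {r : Γ →* Q1 // ∀ γ, (r γ) ^ 3 = 1 ↔ ε γ = 1})) ?_
    intro r r' h
    apply Subtype.ext
    have h1 : f r.1 = f r'.1 := congrArg Subtype.val h
    rw [← hf r.1, ← hf r'.1, h1]
  dual := by
    intro r hr h3
    have hfin : Finite (Λ →* Q2) := fin_hom
    have h1 : r.comp π ≠ 1 := by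
      intro h
      apply hr
      ext γ : 1
      obtain ⟨l, rfl⟩ := hπ γ
      exact DFunLike.congr_fun h l
    refine le_trans ?_ (countD hg Φ (r.comp π) h1 (fun l => h3 (π l)))
    refine Nat.card_le_card_of_injective
      (fun s : DL r => (⟨s.1.comp π, fun l i j => s.2 (π l) i j⟩ : DL (r.comp π))) ?_
    intro s s' h
    apply Subtype.ext
    ext γ : 1
    obtain ⟨l, rfl⟩ := hπ γ
    exact DFunLike.congr_fun (congrArg Subtype.val h) l

/-- LEMMA X for a quotient `Γ` of a group `Λ` with the same finite quotients as a closed surface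
group of genus `g ≥ 2`, such that the homomorphisms of `Λ` to `SL_2(𝔽_2)` factor through `Γ` -/
theorem LX_fac {g : ℕ} (hg : 2 ≤ g) {Λ Γ F : Type} [Group Λ] [Group.FG Λ] [Group Γ] [Field F]
    [Algebra (ZMod 2) F] {ρ : Γ →* Matrix.SpecialLinearGroup (Fin 2) F}
    (Φ : NatBij Λ (SurfG g)) (π : Λ →* Γ) (hπ : Function.Surjective π)
    (hfac : ∀ r : Λ →* Q1, ∃ r' : Γ →* Q1, r'.comp π = r)
    (frac : Frc (OO 2 ρ)) (trF : Algebra.trdeg (ZMod 2) F + 3 = ((6 * g : ℕ) : Cardinal))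
    (pts : ∀ r : Γ →* Q1, ∃ φ : OO 2 ρ →ₐ[ZMod 2] ZMod 2,
      ∀ g i j, φ ⟨(ρ g).1 i j, mem_OO ρ g i j⟩ = (r g).1 i j) : LX ρ :=
  LX_of_XS hg (XS_fac (by omega) Φ π hπ hfac frac trF pts)

end Pool.Agent.SuX
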