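import Pool.Agent.Lib.MP_305fdd_al.Fr.X.Core
import Pool.Agent.Lib.MP_305fdd_al.Fr.N.C.p_reg
import Pool.Agent.Lib.MP_305fdd_al.Fr.X.Frame

/-!
# MP_305fdd_al, closed surface groups: Lemma X, algebraic core

`Γ` has the same numbers of representations as a closed surface group of genus `g ≥ 2`, `G2` is a
finitely generated subgroup, `t` an element which commutes with the subgroup `N` of `G2`, `Γ` is
generated by `G2` and `t`, and `ρ m ≠ 1` for some `m ∈ N`.  Then not every homomorphism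
`f : G2 → Q` and every `u ∈ Q` which commutes with `f (N)` come from a homomorphism of `Γ`
(`Q = SL_2(𝔽_2)` or `Q = SL_2(𝔽_2[ε])`).
-/

set_option autoImplicit false
set_option linter.unusedSectionVars false

namespace Pool.Agent.SuX

open Pool.Agent.FrX Pool.Agent.FrN Matrix

/-- `SL_2(𝔽_2)` -/
abbrev Q1 : Type := Matrix.SpecialLinearGroup (Fin 2) (ZMod 2)

/-- `SL_2(𝔽_2[ε])` -/
abbrev Q2 : Type := Matrix.SpecialLinearGroup (Fin 2) (DualNumber (ZMod 2))

instance finDual : Finite (DualNumber (ZMod 2)) := inferInstanceAs (Finite (ZMod 2 × ZMod 2))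

instance finQ2 : Finite Q2 :=
  inferInstanceAs (Finite {A : Matrix (Fin 2) (Fin 2) (DualNumber (ZMod 2)) // A.det = 1})

/-- homomorphisms from a finitely generated group to a finite group -/
theorem fin_hom {A Q : Type} [Group A] [Group.FG A] [Group Q] [Finite Q] : Finite (A →* Q) := by
  obtain ⟨S, hS⟩ := (inferInstance : Group.FG A).out
  refine Finite.of_injective (fun f : A →* Q => fun s : S => f s.1) ?_
  intro f f' he
  refine MonoidHom.eq_of_eqOn_dense hS ?_
  intro s hs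
  exact congrFun he ⟨s, hs⟩

/-- the lifts of `r` to the dual numbers -/
abbrev DL {A : Type} [Group A] (r : A →* Q1) : Type :=
  {s : A →* Q2 // ∀ a i j, TrivSqZeroExt.fst ((s a).1 i j) = (r a).1 i j}

/-- the data of a group with the same numbers of representations as a closed surface group of
genus `g`, used in Lemma X -/
structure XS (g : ℕ) (Γ F : Type) [Group Γ] [Field F] [Algebra (ZMod 2) F]
    (ρ : Γ →* Matrix.SpecialLinearGroup (Fin 2) F) : Prop where
  fg : Group.FG Γ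
  frac : Frc (OO 2 ρ)
  trF : Algebra.trdeg (ZMod 2) F + 3 = ((6 * g : ℕ) : Cardinal)
  pts : ∀ r : Γ →* Q1,
    ∃ φ : OO 2 ρ →ₐ[ZMod 2] ZMod 2, ∀ g i j, φ ⟨(ρ g).1 i j, mem_OO ρ g i j⟩ = (r g).1 i j
  s3 : ∀ ε : Γ →* Q1, ε ≠ 1 → (∀ γ, ε γ * ε γ = 1) → (∀ γ δ, ε γ * ε δ = ε δ * ε γ) →
    3 ^ (2 * g - 1) ≤ Nat.card {r : Γ →* Q1 // ∀ γ, (r γ) ^ 3 = 1 ↔ ε γ = 1}
  dual : ∀ r : Γ →* Q1, r ≠ 1 → (∀ γ, (r γ) ^ 3 = 1) → Nat.card (DL r) ≤ 2 ^ (6 * g - 2)

section cot

variable {A : Type} [Group A] {O : Type} [CommRing O] [Algebra (ZMod 2) O]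

/-- the ideal of a point is generated by a lift of a basis of the cotangent space -/
theorem exists_gen' [IsNoetherianRing O] (φ : O →+* ZMod 2) :
    ∃ (e : ℕ) (y : Fin e → O), (∀ i, φ (y i) = 0) ∧
      RingHom.ker φ ≤ Ideal.span (Set.range y) ⊔ (RingHom.ker φ) ^ 2 ∧
      Nat.card ((RingHom.ker φ).Cotangent →ₗ[ZMod 2] ZMod 2) = 2 ^ e := by
  classical
  have hfin : Module.Finite (ZMod 2) (RingHom.ker φ).Cotangent := by
    have h1 : Module.Finite O (RingHom.ker φ).Cotangent :=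
      Module.Finite.of_surjective (RingHom.ker φ).toCotangent (RingHom.ker φ).toCotangent_surjective
    obtain ⟨S, hS⟩ := Module.finite_def.1 h1
    refine Module.finite_def.2 ⟨S, ?_⟩
    rw [eq_top_iff]
    intro w _
    have h2 : w ∈ Submodule.span O (S : Set (RingHom.ker φ).Cotangent) := by
      rw [hS]; exact Submodule.mem_top
    refine Submodule.span_induction (p := fun w _ => w ∈ Submodule.span (ZMod 2)
      (S : Set (RingHom.ker φ).Cotangent)) ?_ ?_ ?_ ?_ h2
    · intro x hx; exact Submodule.subset_span hx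
    · exact zero_mem _
    · intro x x' _ _ hx hx'; exact add_mem hx hx'
    · intro r x _ hx
      rw [smul_eq]
      exact Submodule.smul_mem _ _ hx
  set e := Module.finrank (ZMod 2) (RingHom.ker φ).Cotangent with he
  let B := Module.finBasis (ZMod 2) (RingHom.ker φ).Cotangent
  choose y hy using fun i => (RingHom.ker φ).toCotangent_surjective (B i)
  refine ⟨e, fun i => (y i : O), fun i => (y i).2, ?_, ?_⟩
  · intro c hc
    have h1 := B.sum_repr ((RingHom.ker φ).toCotangent ⟨c, hc⟩)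
    have h2 : (RingHom.ker φ).toCotangent (∑ i, (algebraMap (ZMod 2) O
        (B.repr ((RingHom.ker φ).toCotangent ⟨c, hc⟩) i)) • y i) =
        (RingHom.ker φ).toCotangent ⟨c, hc⟩ := by
      rw [map_sum]
      conv_rhs => rw [← h1]
      refine Finset.sum_congr rfl fun i _ => ?_
      rw [map_smul, hy, algebraMap_smul]
    rw [Ideal.toCotangent_eq] at h2
    have h3 : c = ((∑ i, (algebraMap (ZMod 2) O
        (B.repr ((RingHom.ker φ).toCotangent ⟨c, hc⟩) i)) • y i : RingHom.ker φ) : O) -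
        (((∑ i, (algebraMap (ZMod 2) O
        (B.repr ((RingHom.ker φ).toCotangent ⟨c, hc⟩) i)) • y i : RingHom.ker φ) : O) - c) := by
      ring
    rw [h3]
    refine sub_mem (Submodule.mem_sup_left ?_) (Submodule.mem_sup_right h2)
    rw [AddSubmonoidClass.coe_finsetSum]
    exact Ideal.sum_mem _ fun i _ => Ideal.mul_mem_left _ _ (Ideal.subset_span ⟨i, rfl⟩)
  · have h3 : Module.finrank (ZMod 2) (Module.Dual (ZMod 2) (RingHom.ker φ).Cotangent) = e :=
      Subspace.dual_finrank_eq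
    have h4 := Module.natCard_eq_pow_finrank (K := ZMod 2)
      (V := Module.Dual (ZMod 2) (RingHom.ker φ).Cotangent)
    rw [h3, Nat.card_zmod] at h4
    exact h4

theorem phi_alg (φ : O →+* ZMod 2) (r : ZMod 2) : φ (algebraMap (ZMod 2) O r) = r := by
  have : (φ.comp (algebraMap (ZMod 2) O)) = RingHom.id _ := Subsingleton.elim _ _
  exact congrArg (fun f : ZMod 2 →+* ZMod 2 => f r) this

/-- the derivation at a point -/
def dt (φ : O →+* ZMod 2) (z : O) : (RingHom.ker φ).Cotangent :=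
  (RingHom.ker φ).toCotangent ⟨z - algebraMap (ZMod 2) O (φ z), by
    rw [RingHom.mem_ker, map_sub, phi_alg, sub_self]⟩

theorem dt_add (φ : O →+* ZMod 2) (z w : O) : dt φ (z + w) = dt φ z + dt φ w := by
  unfold dt
  rw [← map_add]
  congr 1
  apply Subtype.ext
  show z + w - algebraMap (ZMod 2) O (φ (z + w)) =
    (z - algebraMap (ZMod 2) O (φ z)) + (w - algebraMap (ZMod 2) O (φ w))
  rw [map_add, map_add]
  ring

theorem dt_mul (φ : O →+* ZMod 2) (z w : O) : dt φ (z * w) = φ z • dt φ w + φ w • dt φ z := by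
  have h : ∀ (c : ZMod 2) (v : RingHom.ker φ), c • (RingHom.ker φ).toCotangent v =
      (RingHom.ker φ).toCotangent (algebraMap (ZMod 2) O c • v) := by
    intro c v
    rw [map_smul, algebraMap_smul]
  unfold dt
  rw [h, h, ← map_add, Ideal.toCotangent_eq]
  have h1 : z * w - algebraMap (ZMod 2) O (φ (z * w)) -
      (algebraMap (ZMod 2) O (φ z) * (w - algebraMap (ZMod 2) O (φ w)) +
        algebraMap (ZMod 2) O (φ w) * (z - algebraMap (ZMod 2) O (φ z))) =
      (z - algebraMap (ZMod 2) O (φ z)) * (w - algebraMap (ZMod 2) O (φ w)) := by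
    rw [map_mul, map_mul]; ring
  show z * w - algebraMap (ZMod 2) O (φ (z * w)) -
      (algebraMap (ZMod 2) O (φ z) * (w - algebraMap (ZMod 2) O (φ w)) +
        algebraMap (ZMod 2) O (φ w) * (z - algebraMap (ZMod 2) O (φ z))) ∈ _
  rw [h1, pow_two]
  refine Ideal.mul_mem_mul ?_ ?_ <;> rw [RingHom.mem_ker, map_sub, phi_alg, sub_self]

theorem dt_ker (φ : O →+* ZMod 2) (v : RingHom.ker φ) :
    dt φ (v : O) = (RingHom.ker φ).toCotangent v := by
  unfold dt
  congr 1
  apply Subtype.ext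
  show (v : O) - algebraMap (ZMod 2) O (φ v) = v
  rw [(RingHom.mem_ker).1 v.2, map_zero, sub_zero]

end cot

section count

variable {A F : Type} [Group A] [Field F] [Algebra (ZMod 2) F]

/-- the matrix over the ring of entries -/
def mX (ρ : A →* Matrix.SpecialLinearGroup (Fin 2) F) (a : A) :
    Matrix (Fin 2) (Fin 2) (OO 2 ρ) := fun i j => ⟨(ρ a).1 i j, mem_OO ρ a i j⟩

theorem mX_map (ρ : A →* Matrix.SpecialLinearGroup (Fin 2) F) (a : A) :
    (mX ρ a).map (OO 2 ρ).val = (ρ a).1 := rfl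

/-- the representation over the ring of entries -/
def rX (ρ : A →* Matrix.SpecialLinearGroup (Fin 2) F) :
    A →* Matrix.SpecialLinearGroup (Fin 2) (OO 2 ρ) :=
  have hinj : Function.Injective (fun N : Matrix (Fin 2) (Fin 2) (OO 2 ρ) =>
      N.map (OO 2 ρ).val) := by
    intro N N' h
    ext i j
    exact congrFun (congrFun h i) j
  { toFun := fun a => ⟨mX ρ a, by
      apply Subtype.val_injective
      have h1 := (ρ a).2
      have h2 : (OO 2 ρ).val (mX ρ a).det = ((mX ρ a).map (OO 2 ρ).val).det := by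
        rw [← AlgHom.mapMatrix_apply, ← AlgHom.map_det]
      show (OO 2 ρ).val (mX ρ a).det = 1
      rw [h2, mX_map, h1]⟩
    map_one' := by
      apply Subtype.ext
      apply hinj
      show (mX ρ 1).map (OO 2 ρ).val = (1 : Matrix (Fin 2) (Fin 2) (OO 2 ρ)).map (OO 2 ρ).val
      rw [mX_map, map_one, Matrix.map_one _ (map_zero _) (map_one _)]
      rfl
    map_mul' := fun a a' => by
      apply Subtype.ext
      apply hinj
      show (mX ρ (a * a')).map (OO 2 ρ).val = (mX ρ a * mX ρ a').map (OO 2 ρ).val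
      rw [mX_map, map_mul, Matrix.map_mul, mX_map, mX_map]
      rfl }

theorem rX_apply (ρ : A →* Matrix.SpecialLinearGroup (Fin 2) F) (a : A) (i j : Fin 2) :
    (rX ρ a).1 i j = ⟨(ρ a).1 i j, mem_OO ρ a i j⟩ := rfl

/-- at a point of the variety of representations the number of the lifts to the dual numbers is at
least `2 ^ dim` -/
theorem dual_count [Group.FG A] (ρ : A →* Matrix.SpecialLinearGroup (Fin 2) F) (r : A →* Q1)
    (φ : OO 2 ρ →ₐ[ZMod 2] ZMod 2)
    (hφ : ∀ a i j, φ ⟨(ρ a).1 i j, mem_OO ρ a i j⟩ = (r a).1 i j) :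
    ∃ e : ℕ, Algebra.trdeg (ZMod 2) (OO 2 ρ) ≤ (e : Cardinal) ∧ 2 ^ e ≤ Nat.card (DL r) := by
  classical
  have hft : Algebra.FiniteType (ZMod 2) (OO 2 ρ) :=
    (OO 2 ρ).fg_iff_finiteType.1 (OO_fg ρ)
  have hN : IsNoetherianRing (OO 2 ρ) := Algebra.FiniteType.isNoetherianRing (ZMod 2) _
  obtain ⟨e, y, hy, hm, hc⟩ := exists_gen' (φ : OO 2 ρ →+* ZMod 2)
  refine ⟨e, trdeg_le y _ hy hm, ?_⟩
  set ψ : OO 2 ρ →+* ZMod 2 := (φ : OO 2 ρ →+* ZMod 2) with hψ
  rw [← hc]
  have : Finite (A →* Q2) := fin_hom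
  let θ : ((RingHom.ker ψ).Cotangent →ₗ[ZMod 2] ZMod 2) → OO 2 ρ →+* DualNumber (ZMod 2) :=
    fun l => Pool.Agent.FrNC.thD ψ (fun z => l (dt ψ z))
      (fun z w => by rw [dt_add, map_add])
      (fun z w => by rw [dt_mul, map_add, map_smul, map_smul]; rfl)
  have hθ : ∀ l z, θ l z = Pool.Agent.FrNC.dn (ψ z) (l (dt ψ z)) := fun l z => rfl
  let Ψ : ((RingHom.ker ψ).Cotangent →ₗ[ZMod 2] ZMod 2) → DL r := fun l =>
    ⟨(SpecialLinearGroup.map (θ l)).comp (rX ρ), by
      intro a i j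
      show TrivSqZeroExt.fst (θ l ((rX ρ a).1 i j)) = _
      rw [hθ, Pool.Agent.FrNC.fst_dn, rX_apply]
      exact hφ a i j⟩
  refine Nat.card_le_card_of_injective Ψ ?_
  intro l l' h
  have h1 : ∀ a i j, θ l ((rX ρ a).1 i j) = θ l' ((rX ρ a).1 i j) := by
    intro a i j
    have h2 := congrArg (fun s : DL r => (s.1 a).1 i j) h
    exact h2
  have h2 : ∀ x (hx : x ∈ OO 2 ρ), θ l ⟨x, hx⟩ = θ l' ⟨x, hx⟩ := by
    intro x hx
    refine Algebra.adjoin_induction (p := fun x hx => θ l ⟨x, hx⟩ = θ l' ⟨x, hx⟩) ?_ ?_ ?_ ?_ hx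
    · rintro _ ⟨a, i, j, rfl⟩
      exact h1 a i j
    · intro c
      exact DFunLike.congr_fun (Subsingleton.elim ((θ l).comp (algebraMap (ZMod 2) (OO 2 ρ)))
        ((θ l').comp (algebraMap (ZMod 2) (OO 2 ρ)))) c
    · intro x y hx hy h h'
      have h3 : (⟨x + y, add_mem hx hy⟩ : OO 2 ρ) = ⟨x, hx⟩ + ⟨y, hy⟩ := rfl
      rw [h3, map_add, map_add, h, h']
    · intro x y hx hy h h'
      have h3 : (⟨x * y, mul_mem hx hy⟩ : OO 2 ρ) = ⟨x, hx⟩ * ⟨y, hy⟩ := rfl
      rw [h3, map_mul, map_mul, h, h']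
  ext w
  obtain ⟨v, rfl⟩ := (RingHom.ker ψ).toCotangent_surjective w
  have h3 := congrArg TrivSqZeroExt.snd (h2 (v : OO 2 ρ).1 (v : OO 2 ρ).2)
  have h4 : TrivSqZeroExt.snd (θ l (v : OO 2 ρ)) = TrivSqZeroExt.snd (θ l' (v : OO 2 ρ)) := h3
  rw [hθ, hθ, Pool.Agent.FrNC.snd_dn, Pool.Agent.FrNC.snd_dn, dt_ker] at h4
  exact h4

end count

section small

open Pool.Agent.FrNC

theorem a3_mul (M N : Q1) (hM : M ^ 3 = 1) (hN : N ^ 3 = 1) : (M * N) ^ 3 = 1 := by
  revert M N
  decide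

theorem a3_inv (M : Q1) (hM : M ^ 3 = 1) : M⁻¹ ^ 3 = 1 := by
  rw [inv_pow, hM, inv_one]

theorem a3_comm (M U : Q1) (hM : M ^ 3 = 1) (hU : U ^ 3 ≠ 1) (h : U * M = M * U) : M = 1 := by
  revert M U
  decide

theorem card_inv : Nat.card {U : Q1 // U ^ 3 ≠ 1} = 3 := by
  rw [Nat.card_eq_fintype_card]
  decide

/-- the matrix `1 + ε X`, `X` of trace zero -/
def oneX (x : Fin 3 → ZMod 2) : Q2 := ⟨!![dn 1 (x 0), dn 0 (x 1); dn 0 (x 2), dn 1 (x 0)], by
  rw [Matrix.det_fin_two_of]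
  refine TrivSqZeroExt.ext ?_ ?_
  · simp
  · simp
    exact CharTwo.add_self_eq_zero _⟩

theorem oneX_inj : Function.Injective oneX := by
  intro x y h
  have h1 : ∀ i j, TrivSqZeroExt.snd ((oneX x).1 i j) = TrivSqZeroExt.snd ((oneX y).1 i j) := by
    intro i j; rw [h]
  funext k
  fin_cases k
  · have := h1 0 0
    simpa [oneX] using this
  · have := h1 0 1
    simpa [oneX] using this
  · have := h1 1 0
    simpa [oneX] using this

theorem oneX_fst (x : Fin 3 → ZMod 2) (i j : Fin 2) :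
    TrivSqZeroExt.fst ((oneX x).1 i j) = (1 : Q1).1 i j := by
  fin_cases i <;> fin_cases j <;> simp [oneX]

theorem oneX_comm (x : Fin 3 → ZMod 2) (s : Q2)
    (hs : ∀ i j, TrivSqZeroExt.fst (s.1 i j) = (1 : Q1).1 i j) : oneX x * s = s * oneX x := by
  apply Subtype.ext
  show (oneX x).1 * s.1 = s.1 * (oneX x).1
  have h00 : TrivSqZeroExt.fst (s.1 0 0) = 1 := (hs 0 0).trans (by decide)
  have h01 : TrivSqZeroExt.fst (s.1 0 1) = 0 := (hs 0 1).trans (by decide)
  have h10 : TrivSqZeroExt.fst (s.1 1 0) = 0 := (hs 1 0).trans (by decide)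
  have h11 : TrivSqZeroExt.fst (s.1 1 1) = 1 := (hs 1 1).trans (by decide)
  ext1 i j
  rw [Matrix.mul_apply, Matrix.mul_apply, Fin.sum_univ_two, Fin.sum_univ_two]
  refine TrivSqZeroExt.ext ?_ ?_
  · fin_cases i <;> fin_cases j <;> simp [oneX, h00, h01, h10, h11]
  · fin_cases i <;> fin_cases j <;> simp [oneX, h00, h01, h10, h11, add_comm]

/-- reduction of the dual numbers -/
def pr : Q2 →* Q1 :=
  SpecialLinearGroup.map (TrivSqZeroExt.fstHom (ZMod 2) (ZMod 2) (ZMod 2)).toRingHom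

theorem pr_apply (s : Q2) (i j : Fin 2) : (pr s).1 i j = TrivSqZeroExt.fst (s.1 i j) := rfl

theorem pr_eq {s : Q2} {r : Q1} : (∀ i j, TrivSqZeroExt.fst (s.1 i j) = r.1 i j) ↔ pr s = r := by
  constructor
  · intro h
    apply Subtype.ext
    ext i j
    rw [pr_apply]
    exact h i j
  · rintro rfl i j
    rfl

end small

section main

variable {g : ℕ} {Γ F : Type} [Group Γ] [Field F] [Algebra (ZMod 2) F]
    {ρ : Γ →* Matrix.SpecialLinearGroup (Fin 2) F}

/-- two homomorphisms which agree on the generators -/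
theorem hom_eq {Q : Type} [Group Q] {G2 : Subgroup Γ} {t : Γ}
    (hgen : Subgroup.closure ((G2 : Set Γ) ∪ {t}) = ⊤) {f f' : Γ →* Q}
    (h : ∀ x ∈ G2, f x = f' x) (ht : f t = f' t) : f = f' := by
  refine MonoidHom.eq_of_eqOn_dense hgen ?_
  rintro x (hx | hx)
  · exact h x hx
  · rw [Set.mem_singleton_iff.1 hx]; exact ht

/-- LEMMA X for closed surface groups, algebraic core. -/
theorem lemXS (hg : 2 ≤ g) (h : XS g Γ F ρ) (G2 : Subgroup Γ) (hfg : Group.FG G2)
    (N : Set G2) (t : Γ) (m : G2) (hm : m ∈ N) (hm1 : ρ m ≠ 1)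
    (htm : ∀ n ∈ N, t * (n : Γ) = n * t)
    (hgen : Subgroup.closure ((G2 : Set Γ) ∪ {t}) = ⊤)
    (hext1 : ∀ (f : G2 →* Q1) (u : Q1), (∀ n ∈ N, u * f n = f n * u) →
      ∃ f' : Γ →* Q1, (∀ g : G2, f' g = f g) ∧ f' t = u)
    (hext2 : ∀ (f : G2 →* Q2) (u : Q2), (∀ n ∈ N, u * f n = f n * u) →
      ∃ f' : Γ →* Q2, (∀ g : G2, f' g = f g) ∧ f' t = u) : False := by
  have hΓ : Group.FG Γ := h.fg
  have hf1 : Finite (G2 →* Q1) := fin_hom
  have hf2 : Finite (Γ →* Q1) := fin_hom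
  have hf3 : Finite (G2 →* Q2) := fin_hom
  have hf4 : Finite (Γ →* Q2) := fin_hom
  -- the character of order two
  let u0 : Q1 := ⟨!![1, 1; 0, 1], by simp [Matrix.det_fin_two]⟩
  have hu0 : u0 ≠ 1 := by decide
  have hu0' : u0 * u0 = 1 := by decide
  have hu3 : u0 ^ 3 ≠ 1 := by decide
  obtain ⟨ε, hε, hεt⟩ := hext1 1 u0 (fun n _ => by rw [MonoidHom.one_apply, mul_one, one_mul])
  have hεv : ∀ γ, ε γ = 1 ∨ ε γ = u0 := by
    intro γ
    have hγ : γ ∈ Subgroup.closure ((G2 : Set Γ) ∪ {t}) := by rw [hgen]; exact Subgroup.mem_top _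
    induction hγ using Subgroup.closure_induction with
    | mem x hx =>
      rcases hx with hx | hx
      · exact Or.inl (hε ⟨x, hx⟩)
      · rw [Set.mem_singleton_iff.1 hx]; exact Or.inr hεt
    | one => exact Or.inl (map_one _)
    | mul x y _ _ hx hy =>
      rw [map_mul]
      rcases hx with hx | hx <;> rcases hy with hy | hy <;> rw [hx, hy]
      · exact Or.inl (one_mul _)
      · exact Or.inr (one_mul _)
      · exact Or.inr (mul_one _)
      · exact Or.inl hu0'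
    | inv x _ hx =>
      rw [map_inv]
      rcases hx with hx | hx <;> rw [hx]
      · exact Or.inl inv_one
      · exact Or.inr (inv_eq_of_mul_eq_one_right hu0')
  have hcard := h.s3 ε (by rintro rfl; exact hu0 (hεt.symm.trans rfl))
    (fun γ => by rcases hεv γ with h1 | h1 <;> rw [h1] <;> [exact one_mul _; exact hu0'])
    (fun γ δ => by
      rcases hεv γ with h1 | h1 <;> rcases hεv δ with h2 | h2 <;> rw [h1, h2] <;>
        simp only [one_mul, mul_one])
  -- a nontrivial character of order three of `G2`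
  have hεG : ∀ a : G2, ε a = 1 := fun a => hε a
  obtain ⟨χ, hχ3, hχN, hχ1⟩ : ∃ χ : G2 →* Q1, (∀ a, (χ a) ^ 3 = 1) ∧ (∀ n ∈ N, χ n = 1) ∧ χ ≠ 1 := by
    by_contra hno
    push Not at hno
    let Ψ : {r : Γ →* Q1 // ∀ γ, (r γ) ^ 3 = 1 ↔ ε γ = 1} → {U : Q1 // U ^ 3 ≠ 1} := fun r =>
      ⟨r.1 t, fun h1 => hu0 (by rw [← hεt]; exact (r.2 t).1 h1)⟩
    have hinj : Function.Injective Ψ := by
      rintro ⟨r, hr⟩ ⟨r', hr'⟩ he
      have he : r t = r' t := congrArg Subtype.val he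
      have h1 : ∀ r : Γ →* Q1, (∀ γ, (r γ) ^ 3 = 1 ↔ ε γ = 1) → ∀ x ∈ G2, r x = 1 := by
        intro r hr x hx
        have h2 := hno (r.comp G2.subtype) (fun a => (hr a).2 (hεG a)) (by
          intro n hn
          refine a3_comm _ (r t) ((hr n).2 (hεG n)) ?_ ?_
          · intro h1
            exact hu0 (by rw [← hεt]; exact (hr t).1 h1)
          · show r t * r n = r n * r t
            rw [← map_mul, htm n hn, map_mul])
        have h3 := DFunLike.congr_fun h2 ⟨x, hx⟩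
        exact h3
      apply Subtype.ext
      exact hom_eq hgen (fun x hx => by rw [h1 r hr x hx, h1 r' hr' x hx]) he
    have h1 := Nat.card_le_card_of_injective Ψ hinj
    rw [card_inv] at h1
    have h2 : 3 ^ 2 ≤ 3 ^ (2 * g - 1) := Nat.pow_le_pow_right (by norm_num) (by omega)
    omega
  -- the point `y`
  obtain ⟨y, hy, hyt⟩ := hext1 χ 1 (fun n _ => by rw [mul_one, one_mul])
  have hy1 : y ≠ 1 := by
    rintro rfl
    apply hχ1
    ext a : 1
    rw [← hy a]
    rfl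
  have hy3 : ∀ γ, (y γ) ^ 3 = 1 := by
    intro γ
    have hγ : γ ∈ Subgroup.closure ((G2 : Set Γ) ∪ {t}) := by rw [hgen]; exact Subgroup.mem_top _
    induction hγ using Subgroup.closure_induction with
    | mem x hx =>
      rcases hx with hx | hx
      · have := hy ⟨x, hx⟩
        have h1 : y x = χ ⟨x, hx⟩ := this
        rw [h1]; exact hχ3 _
      · rw [Set.mem_singleton_iff.1 hx, hyt, one_pow]
    | one => rw [map_one, one_pow]
    | mul x y _ _ hx hy => rw [map_mul]; exact a3_mul _ _ hx hy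
    | inv x _ hx => rw [map_inv]; exact a3_inv _ hx
  have hdual := h.dual y hy1 hy3
  -- lifts
  have hcomm : ∀ (s : DL χ) (x : Fin 3 → ZMod 2), ∀ n ∈ N, oneX x * s.1 n = s.1 n * oneX x := by
    intro s x n hn
    refine oneX_comm x _ ?_
    intro i j
    rw [s.2 n i j, hχN n hn]
  choose f' hf' hf't using fun (s : DL χ) (x : Fin 3 → ZMod 2) => hext2 s.1 (oneX x) (hcomm s x)
  let Φ : DL χ × (Fin 3 → ZMod 2) → DL y := fun p => ⟨f' p.1 p.2, by
    have h1 : pr.comp (f' p.1 p.2) = y := by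
      refine hom_eq hgen ?_ ?_
      · intro x hx
        have h2 := hf' p.1 p.2 ⟨x, hx⟩
        have h3 : f' p.1 p.2 x = p.1.1 ⟨x, hx⟩ := h2
        have h4 : y x = χ ⟨x, hx⟩ := hy ⟨x, hx⟩
        rw [MonoidHom.comp_apply, h3, h4]
        exact pr_eq.1 (p.1.2 ⟨x, hx⟩)
      · rw [MonoidHom.comp_apply, hf't, hyt]
        exact pr_eq.1 (oneX_fst p.2)
    intro γ
    exact pr_eq.2 (DFunLike.congr_fun h1 γ)⟩
  have hΦ : Function.Injective Φ := by
    rintro ⟨s, x⟩ ⟨s', x'⟩ he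
    have he : f' s x = f' s' x' := congrArg Subtype.val he
    have h1 : s = s' := by
      apply Subtype.ext
      ext a : 1
      rw [← hf' s x a, ← hf' s' x' a, he]
    have h2 : x = x' := by
      apply oneX_inj
      rw [← hf't s x, ← hf't s' x', he]
    rw [h1, h2]
  have hc1 := Nat.card_le_card_of_injective Φ hΦ
  rw [Nat.card_prod] at hc1
  have hc2 : Nat.card (Fin 3 → ZMod 2) = 8 := by
    rw [Nat.card_fun, Nat.card_fin, Nat.card_zmod]; norm_num
  rw [hc2] at hc1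
  -- the dimension
  obtain ⟨φ, hφ⟩ := h.pts y
  have hle : OO 2 (ρ.comp G2.subtype) ≤ OO 2 ρ := by
    rw [OO, Algebra.adjoin_le_iff]
    rintro _ ⟨g, i, j, rfl⟩
    exact mem_OO ρ (g : Γ) i j
  obtain ⟨e, he1, he2⟩ := dual_count (ρ.comp G2.subtype) χ (φ.comp (Subalgebra.inclusion hle)) (by
    intro a i j
    have h1 : (y (a : Γ)) = χ a := hy a
    rw [← h1]
    exact hφ (a : Γ) i j)
  have h5 := trdeg_step ρ G2 t m m.2 hm1 (by rw [← map_mul, htm m hm, map_mul]) hgen h.frac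
  have h6 : ((6 * g : ℕ) : Cardinal) ≤ ((e + 4 : ℕ) : Cardinal) := by
    calc ((6 * g : ℕ) : Cardinal) = Algebra.trdeg (ZMod 2) F + 3 := h.trF.symm
      _ ≤ (Algebra.trdeg (ZMod 2) (OO 2 (ρ.comp G2.subtype)) + 1) + 3 := by gcongr
      _ ≤ ((e : Cardinal) + 1) + 3 := by gcongr
      _ = ((e + 4 : ℕ) : Cardinal) := by push_cast; ring
  have h7 : 6 * g ≤ e + 4 := by exact_mod_cast h6
  have h8 : 2 ^ e * 8 ≤ 2 ^ (6 * g - 2) :=
    (Nat.mul_le_mul_right 8 he2).trans (hc1.trans hdual)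
  have h9 : 2 ^ (6 * g - 2) < 2 ^ (e + 3) := Nat.pow_lt_pow_right (by norm_num) (by omega)
  rw [pow_add] at h9
  omega

end main

end Pool.Agent.SuX
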