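import Pool.Agent.Lib.MP_305fdd_al.Fr.X.Frame

/-!
# MP_305fdd_al, closed surface groups: Lemma X, extension of representations over all rings

General form of `FrX.ext_frame`: a representation of the group `L` of the closed paths which use only
the kernels of `k c` at the cylinders, together with elements `u c` which commute with the images of
these kernels, extends to `Γ`.
-/

set_option autoImplicit false
set_option linter.unusedSectionVars false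
set_option linter.unusedVariables false

namespace Pool.Agent.SuX

open Pool.Agent.FrX Pool.Agent.FrN

variable {Γ V C E : Type} [Group Γ]

/-- existence part of the universal property, for the group `Q`, in gauge form -/
def GUQ (Q : Type) [Group Q] (gv : V → Subgroup Γ) (mc : C → Subgroup Γ) (vt : E → V) (ct : E → C)
    (s : E → Γ) (ee : E → Subgroup Γ) : Prop :=
  ∀ (rv : ∀ v, gv v →* Q) (rc : ∀ c, mc c →* Q) (σ : E → Q),
    (∀ e x, x ∈ ee e → ∀ (h1 : x ∈ gv (vt e)) (h2 : (s e)⁻¹ * x * s e ∈ mc (ct e)),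
      rv (vt e) ⟨x, h1⟩ = σ e * rc (ct e) ⟨(s e)⁻¹ * x * s e, h2⟩ * (σ e)⁻¹) →
    ∃ (r : Γ →* Q) (α : V → Q) (β : C → Q),
      (∀ v (x : gv v), rv v x = α v * r x * (α v)⁻¹) ∧
      (∀ c (x : mc c), rc c x = β c * r x * (β c)⁻¹) ∧
      ∀ e, σ e = α (vt e) * r (s e) * (β (ct e))⁻¹

variable {gv : V → Subgroup Γ} {mc : C → Subgroup Γ} {vt : E → V} {ct : E → C} {s : E → Γ}
  {ee : E → Subgroup Γ} {v0 : V} {Q : Type} [Group Q]

theorem ext_rvQ {mc' : C → Subgroup Γ} {L : Subgroup Γ}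
    (hL : L = Loop gv mc' vt ct s (Sum.inl v0)) (p : V ⊕ C → Γ)
    (hp : ∀ a, Pa gv mc' vt ct s (Sum.inl v0) a (p a)) (f : L →* Q) (v : V) :
    ∃ rv : gv v →* Q, ∀ (x : gv v)
      (h : p (Sum.inl v) * (x : Γ) * (p (Sum.inl v))⁻¹ ∈ L), rv x = f ⟨_, h⟩ := by
  subst hL
  refine ⟨f.comp
    { toFun := fun x => ⟨p (Sum.inl v) * (x : Γ) * (p (Sum.inl v))⁻¹,
        (hp _).conj (hp _) (Pa.vert v (x : Γ) x.2)⟩
      map_one' := ?_
      map_mul' := ?_ }, ?_⟩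
  · apply Subtype.ext
    show p (Sum.inl v) * ((1 : gv v) : Γ) * (p (Sum.inl v))⁻¹ = 1
    simp
  · intro x y
    apply Subtype.ext
    show p (Sum.inl v) * ((x * y : gv v) : Γ) * (p (Sum.inl v))⁻¹ =
      (p (Sum.inl v) * x * (p (Sum.inl v))⁻¹) * (p (Sum.inl v) * y * (p (Sum.inl v))⁻¹)
    rw [Subgroup.coe_mul]
    group
  · intro x h
    rfl

theorem ext_rcQ {mc' : C → Subgroup Γ} {L : Subgroup Γ}
    (hL : L = Loop gv mc' vt ct s (Sum.inl v0)) (p : V ⊕ C → Γ)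
    (hp : ∀ a, Pa gv mc' vt ct s (Sum.inl v0) a (p a)) (f : L →* Q) (c : C)
    (k : mc c →* Multiplicative ℤ) (t : mc c) (htc : ∀ m : mc c, t * m = m * t)
    (hmc : ∀ m : mc c, k m = 1 → (m : Γ) ∈ mc' c)
    (hkt : ∀ m : mc c, k (m * t ^ (-(Multiplicative.toAdd (k m)))) = 1)
    (u : Q) (hu : ∀ (m : mc c), k m = 1 → ∀ (h : p (Sum.inr c) * (m : Γ) * (p (Sum.inr c))⁻¹ ∈ L),
      u * f ⟨_, h⟩ = f ⟨_, h⟩ * u) :
    ∃ rc : mc c →* Q, (∀ (x : mc c), k x = 1 →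
      ∀ (h : p (Sum.inr c) * (x : Γ) * (p (Sum.inr c))⁻¹ ∈ L), rc x = f ⟨_, h⟩) ∧
      (k t = Multiplicative.ofAdd 1 → rc t = u) := by
  subst hL
  have hcor : ∀ (m : mc c), ((m * t ^ (-(Multiplicative.toAdd (k m))) : mc c) : Γ) ∈ mc' c :=
    fun m => hmc _ (hkt m)
  have hin : ∀ (m : mc c), p (Sum.inr c) *
        ((m * t ^ (-(Multiplicative.toAdd (k m))) : mc c) : Γ) * (p (Sum.inr c))⁻¹ ∈
        Loop gv mc' vt ct s (Sum.inl v0) :=
    fun m => (hp _).conj (hp _) (Pa.cyl c _ (hcor m))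
  have hone : f ⟨_, hin 1⟩ = 1 := by
    have h1 : (⟨_, hin 1⟩ : Loop gv mc' vt ct s (Sum.inl v0)) = 1 := by
      apply Subtype.ext
      show p (Sum.inr c) * (((1 : mc c) * t ^ (-(Multiplicative.toAdd (k 1))) : mc c) : Γ) *
        (p (Sum.inr c))⁻¹ = 1
      rw [map_one, toAdd_one, neg_zero, zpow_zero, one_mul, Subgroup.coe_one, mul_one,
        mul_inv_cancel]
    rw [h1, map_one]
  have hmul : ∀ m n : mc c, f ⟨_, hin (m * n)⟩ = f ⟨_, hin m⟩ * f ⟨_, hin n⟩ := by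
    intro m n
    rw [← map_mul]
    congr 1
    apply Subtype.ext
    show p (Sum.inr c) * (((m * n : mc c) * t ^ (-(Multiplicative.toAdd (k (m * n)))) :
      mc c) : Γ) * (p (Sum.inr c))⁻¹ = (p (Sum.inr c) *
      ((m * t ^ (-(Multiplicative.toAdd (k m))) : mc c) : Γ) * (p (Sum.inr c))⁻¹) *
      (p (Sum.inr c) * ((n * t ^ (-(Multiplicative.toAdd (k n))) : mc c) : Γ) *
      (p (Sum.inr c))⁻¹)
    have h2 : (m * n : mc c) * t ^ (-(Multiplicative.toAdd (k (m * n)))) =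
        (m * t ^ (-(Multiplicative.toAdd (k m)))) * (n * t ^ (-(Multiplicative.toAdd (k n)))) := by
      rw [map_mul, toAdd_mul, neg_add, zpow_add]
      have h3 : Commute t n := htc n
      have h4 : Commute (t ^ (-(Multiplicative.toAdd (k m)))) n := h3.zpow_left _
      calc m * n * (t ^ (-Multiplicative.toAdd (k m)) * t ^ (-Multiplicative.toAdd (k n)))
          = m * (n * t ^ (-Multiplicative.toAdd (k m))) * t ^ (-Multiplicative.toAdd (k n)) := by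
            simp only [mul_assoc]
        _ = m * (t ^ (-Multiplicative.toAdd (k m)) * n) * t ^ (-Multiplicative.toAdd (k n)) := by
            rw [h4.eq]
        _ = _ := by simp only [mul_assoc]
    rw [h2, Subgroup.coe_mul]
    group
  have hcu : ∀ (m : mc c) (n : ℤ), Commute (u ^ n) (f ⟨_, hin m⟩) := by
    intro m n
    exact Commute.zpow_left (hu _ (hkt m) (hin m)) n
  refine ⟨{ toFun := fun m => f ⟨_, hin m⟩ * u ^ (Multiplicative.toAdd (k m))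
            map_one' := ?_
            map_mul' := ?_ }, ?_, ?_⟩
  · show f ⟨_, hin 1⟩ * u ^ (Multiplicative.toAdd (k 1)) = 1
    rw [hone, map_one, toAdd_one, zpow_zero, one_mul]
  · intro m n
    show f ⟨_, hin (m * n)⟩ * u ^ (Multiplicative.toAdd (k (m * n))) =
      (f ⟨_, hin m⟩ * u ^ (Multiplicative.toAdd (k m))) *
      (f ⟨_, hin n⟩ * u ^ (Multiplicative.toAdd (k n)))
    rw [hmul, map_mul, toAdd_mul, zpow_add]
    have h1 := (hcu n (Multiplicative.toAdd (k m))).eq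
    calc f ⟨_, hin m⟩ * f ⟨_, hin n⟩ * (u ^ Multiplicative.toAdd (k m) *
          u ^ Multiplicative.toAdd (k n))
        = f ⟨_, hin m⟩ * (f ⟨_, hin n⟩ * u ^ Multiplicative.toAdd (k m)) *
          u ^ Multiplicative.toAdd (k n) := by simp only [mul_assoc]
      _ = f ⟨_, hin m⟩ * (u ^ Multiplicative.toAdd (k m) * f ⟨_, hin n⟩) *
          u ^ Multiplicative.toAdd (k n) := by rw [h1]
      _ = _ := by simp only [mul_assoc]
  · intro x hx h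
    show f ⟨_, hin x⟩ * u ^ (Multiplicative.toAdd (k x)) = f ⟨_, h⟩
    have h0 : u ^ (Multiplicative.toAdd (k x)) = 1 := by rw [hx, toAdd_one, zpow_zero]
    rw [h0, mul_one]
    congr 1
    apply Subtype.ext
    show p (Sum.inr c) * ((x * t ^ (-(Multiplicative.toAdd (k x))) : mc c) : Γ) *
      (p (Sum.inr c))⁻¹ = _
    rw [hx, toAdd_one, neg_zero, zpow_zero, mul_one]
  · intro h1
    show f ⟨_, hin t⟩ * u ^ (Multiplicative.toAdd (k t)) = u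
    have h2 : (⟨_, hin t⟩ : Loop gv mc' vt ct s (Sum.inl v0)) = 1 := by
      apply Subtype.ext
      show p (Sum.inr c) * ((t * t ^ (-(Multiplicative.toAdd (k t))) : mc c) : Γ) *
        (p (Sum.inr c))⁻¹ = 1
      rw [h1, toAdd_ofAdd, zpow_neg, zpow_one, mul_inv_cancel, Subgroup.coe_one, mul_one,
        mul_inv_cancel]
    rw [h2, map_one, h1, toAdd_ofAdd, zpow_one, one_mul]

/-- LEMMA X: extension of representations from the group of the closed paths which use only the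
kernels of `k c` at the cylinders. -/
theorem ext_frameQ {mc' : C → Subgroup Γ} {L : Subgroup Γ}
    (hL : L = Loop gv mc' vt ct s (Sum.inl v0))
    (hU : GUQ Q gv mc vt ct s ee)
    (k : ∀ c, mc c →* Multiplicative ℤ) (t : ∀ c, mc c) (htc : ∀ c (m : mc c), t c * m = m * t c)
    (hmc : ∀ c, ∀ m : mc c, k c m = 1 → (m : Γ) ∈ mc' c)
    (hmc' : ∀ c, ∀ m ∈ mc' c, ∃ h : m ∈ mc c, k c ⟨m, h⟩ = 1)
    (hkt : ∀ c (m : mc c), k c (m * (t c) ^ (-(Multiplicative.toAdd (k c m)))) = 1)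
    (hke : ∀ e x (hx : x ∈ ee e), ∃ h2 : (s e)⁻¹ * x * s e ∈ mc (ct e), k (ct e) ⟨_, h2⟩ = 1)
    (p : V ⊕ C → Γ)
    (hp : ∀ a, Pa gv mc' vt ct s (Sum.inl v0) a (p a))
    (f : L →* Q) (u : C → Q)
    (hu : ∀ c, ∀ (m : mc c), k c m = 1 →
      ∀ (h : p (Sum.inr c) * (m : Γ) * (p (Sum.inr c))⁻¹ ∈ L), u c * f ⟨_, h⟩ = f ⟨_, h⟩ * u c) :
    ∃ f' : Γ →* Q, (∀ g : L, f' g = f g) ∧
      ∀ c, k c (t c) = Multiplicative.ofAdd 1 →
        f' (p (Sum.inr c) * t c * (p (Sum.inr c))⁻¹) = u c := by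
  choose rv hrv using ext_rvQ hL p hp f
  choose rc hrc hrct using fun c => ext_rcQ hL p hp f c (k c) (t c) (htc c) (hmc c) (hkt c) (u c)
    (hu c)
  have hconj : ∀ {a b : V ⊕ C} {γ : Γ}, Pa gv mc' vt ct s a b γ → p a * γ * (p b)⁻¹ ∈ L := by
    intro a b γ h
    rw [hL]
    exact (hp a).conj (hp b) h
  have hs : ∀ e, p (Sum.inl (vt e)) * s e * (p (Sum.inr (ct e)))⁻¹ ∈ L := fun e =>
    hconj (Pa.edge e)
  obtain ⟨r, α, β, hα, hβ, hσ⟩ := hU rv rc (fun e => f ⟨_, hs e⟩) (by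
      intro e x hx h1 h2
      obtain ⟨h3, h4⟩ := hke e x hx
      have h5 : p (Sum.inr (ct e)) * ((s e)⁻¹ * x * s e) * (p (Sum.inr (ct e)))⁻¹ ∈ L :=
        hconj (Pa.cyl (ct e) _ (hmc _ ⟨_, h2⟩ h4))
      have h6 : p (Sum.inl (vt e)) * x * (p (Sum.inl (vt e)))⁻¹ ∈ L := hconj (Pa.vert _ x h1)
      show rv (vt e) ⟨x, h1⟩ = f ⟨_, hs e⟩ * rc (ct e) ⟨_, h2⟩ * (f ⟨_, hs e⟩)⁻¹
      rw [hrv _ ⟨x, h1⟩ h6, hrc _ ⟨_, h2⟩ h4 h5, ← map_inv, ← map_mul, ← map_mul]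
      congr 1
      apply Subtype.ext
      show p (Sum.inl (vt e)) * x * (p (Sum.inl (vt e)))⁻¹ =
        (p (Sum.inl (vt e)) * s e * (p (Sum.inr (ct e)))⁻¹) *
        (p (Sum.inr (ct e)) * ((s e)⁻¹ * x * s e) * (p (Sum.inr (ct e)))⁻¹) *
        (p (Sum.inl (vt e)) * s e * (p (Sum.inr (ct e)))⁻¹)⁻¹
      group)
  let ζ : V ⊕ C → Q := Sum.elim α β
  -- values on the paths
  have keyB : ∀ {a b : V ⊕ C} {γ : Γ}, Pa gv mc' vt ct s a b γ →
      ∃ h : p a * γ * (p b)⁻¹ ∈ L, ζ a * r γ * (ζ b)⁻¹ = f ⟨_, h⟩ := by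
    intro a b γ h
    induction h with
    | vert v x hx =>
      refine ⟨hconj (Pa.vert v x hx), ?_⟩
      show α v * r x * (α v)⁻¹ = _
      rw [← hα v ⟨x, hx⟩, hrv v ⟨x, hx⟩ (hconj (Pa.vert v x hx))]
    | cyl c m hm =>
      refine ⟨hconj (Pa.cyl c m hm), ?_⟩
      show β c * r m * (β c)⁻¹ = _
      obtain ⟨h3, h4⟩ := hmc' c m hm
      rw [← hβ c ⟨m, h3⟩, hrc c ⟨m, h3⟩ h4 (hconj (Pa.cyl c m hm))]
    | edge e =>
      exact ⟨hs e, (hσ e).symm⟩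
    | @comp a b d g h _ _ h1 h2 =>
      obtain ⟨h3, h4⟩ := h1
      obtain ⟨h5, h6⟩ := h2
      have h7 : p a * (g * h) * (p d)⁻¹ = (p a * g * (p b)⁻¹) * (p b * h * (p d)⁻¹) := by group
      have h8 : p a * (g * h) * (p d)⁻¹ ∈ L := by rw [h7]; exact mul_mem h3 h5
      refine ⟨h8, ?_⟩
      have h9 : (⟨_, h8⟩ : L) = ⟨_, h3⟩ * ⟨_, h5⟩ := Subtype.ext h7
      rw [h9, map_mul f, ← h4, ← h6, map_mul r]
      group
    | @inv a b g _ h1 =>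
      obtain ⟨h3, h4⟩ := h1
      have h7 : p b * g⁻¹ * (p a)⁻¹ = (p a * g * (p b)⁻¹)⁻¹ := by group
      have h8 : p b * g⁻¹ * (p a)⁻¹ ∈ L := by rw [h7]; exact inv_mem h3
      refine ⟨h8, ?_⟩
      have h9 : (⟨_, h8⟩ : L) = (⟨_, h3⟩ : L)⁻¹ := Subtype.ext h7
      rw [h9, map_inv f, ← h4, map_inv r]
      group
  -- the base point
  have hpL : p (Sum.inl v0) ∈ L := by rw [hL]; exact hp _
  let κ : Q := (f ⟨_, hpL⟩)⁻¹ * α v0
  refine ⟨(MulAut.conj κ).toMonoidHom.comp r, ?_, ?_⟩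
  · rintro ⟨g, hg⟩
    have hg' : Pa gv mc' vt ct s (Sum.inl v0) (Sum.inl v0) g := by rw [hL] at hg; exact hg
    obtain ⟨h1, h2⟩ := keyB hg'
    have h2' : α v0 * r g * (α v0)⁻¹ = f ⟨_, h1⟩ := h2
    have h5 : (⟨_, h1⟩ : L) = ⟨_, hpL⟩ * ⟨g, hg⟩ * (⟨_, hpL⟩ : L)⁻¹ := rfl
    rw [h5, map_mul, map_mul, map_inv] at h2'
    show ((f ⟨_, hpL⟩)⁻¹ * α v0) * r g * ((f ⟨_, hpL⟩)⁻¹ * α v0)⁻¹ = f ⟨g, hg⟩
    calc ((f ⟨_, hpL⟩)⁻¹ * α v0) * r g * ((f ⟨_, hpL⟩)⁻¹ * α v0)⁻¹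
        = (f ⟨_, hpL⟩)⁻¹ * (α v0 * r g * (α v0)⁻¹) * f ⟨_, hpL⟩ := by group
      _ = (f ⟨_, hpL⟩)⁻¹ * (f ⟨_, hpL⟩ * f ⟨g, hg⟩ * (f ⟨_, hpL⟩)⁻¹) * f ⟨_, hpL⟩ := by rw [h2']
      _ = f ⟨g, hg⟩ := by group
  · intro c hc
    obtain ⟨h1, h2⟩ := keyB (hp (Sum.inr c))
    have h2' : α v0 * r (p (Sum.inr c)) * (β c)⁻¹ = f ⟨_, h1⟩ := h2
    have h5 : (⟨_, h1⟩ : L) = ⟨_, hpL⟩ := by
      apply Subtype.ext
      show p (Sum.inl v0) * p (Sum.inr c) * (p (Sum.inr c))⁻¹ = p (Sum.inl v0)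
      group
    rw [h5] at h2'
    have h3 : rc c (t c) = β c * r (t c) * (β c)⁻¹ := hβ c (t c)
    rw [hrct c hc] at h3
    have h6 : α v0 * r (p (Sum.inr c)) = f ⟨_, hpL⟩ * β c := by
      rw [← h2']; group
    show ((f ⟨_, hpL⟩)⁻¹ * α v0) * r (p (Sum.inr c) * t c * (p (Sum.inr c))⁻¹) *
      ((f ⟨_, hpL⟩)⁻¹ * α v0)⁻¹ = u c
    rw [map_mul, map_mul, map_inv]
    calc ((f ⟨_, hpL⟩)⁻¹ * α v0) * (r (p (Sum.inr c)) * r (t c) * (r (p (Sum.inr c)))⁻¹) *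
          ((f ⟨_, hpL⟩)⁻¹ * α v0)⁻¹
        = (f ⟨_, hpL⟩)⁻¹ * (α v0 * r (p (Sum.inr c))) * r (t c) *
          (α v0 * r (p (Sum.inr c)))⁻¹ * f ⟨_, hpL⟩ := by group
      _ = (f ⟨_, hpL⟩)⁻¹ * (f ⟨_, hpL⟩ * β c) * r (t c) * (f ⟨_, hpL⟩ * β c)⁻¹ *
          f ⟨_, hpL⟩ := by rw [h6]
      _ = β c * r (t c) * (β c)⁻¹ := by group
      _ = u c := h3.symm

end Pool.Agent.SuX
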