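import Pool.Agent.Lib.MP_305fdd_al.Su.X.Ext
import Pool.Agent.Lib.MP_305fdd_al.Su.X.Core
import Pool.Agent.Lib.MP_305fdd_al.Su.X.Abs

/-!
# MP_305fdd_al, closed surface groups: Lemma X for splittings
-/

set_option autoImplicit false
set_option linter.unusedSectionVars false
set_option linter.unusedVariables false

namespace Pool.Agent.SuX

open Pool.Agent.FrN Pool.Agent.FrS Pool.Agent.FrX

section

variable {Γ : Type} [Group Γ] (S : GG Γ) (x : S.V)

open Classical in
theorem b_upQ (hS : S.UP) (R : Type) [CommRing R] [Algebra (ZMod 2) R] :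
    GUQ (Matrix.SpecialLinearGroup (Fin 2) R) (bgv S) S.G (bvt S) (bct S x) (bs S) (bee S) := by
  intro rv rc σ hc
  let F : GG.Fam S (Matrix.SpecialLinearGroup (Fin 2) R) :=
    { r := fun w y => if h : y ∈ S.G w then rc w ⟨y, h⟩ else 1
      t := fun e => (σ (some (e, false)))⁻¹ * σ (some (e, true))
      mul := by
        intro v y hy z hz
        rw [dif_pos hy, dif_pos hz, dif_pos (mul_mem hy hz), ← map_mul]
        rfl
      cm := by
        intro e c hce
        have h1 := S.Ca e hce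
        have h2 := S.Cb e c hce
        rw [dif_pos h1, dif_pos h2]
        have h3 : (1 : Γ)⁻¹ * c * 1 ∈ S.G (S.a e) := by
          rw [inv_one, one_mul, mul_one]; exact h1
        have h4 : rv (some e) ⟨c, hce⟩ = σ (some (e, false)) * rc (S.a e) ⟨(1 : Γ)⁻¹ * c * 1, h3⟩ *
            (σ (some (e, false)))⁻¹ := hc (some (e, false)) c hce hce h3
        have h5 : rv (some e) ⟨c, hce⟩ = σ (some (e, true)) *
            rc (S.b e) ⟨(S.s e)⁻¹ * c * S.s e, h2⟩ * (σ (some (e, true)))⁻¹ :=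
          hc (some (e, true)) c hce hce h2
        have h6 : (⟨(1 : Γ)⁻¹ * c * 1, h3⟩ : S.G (S.a e)) = ⟨c, h1⟩ := by
          apply Subtype.ext
          show (1 : Γ)⁻¹ * c * 1 = c
          rw [inv_one, one_mul, mul_one]
        rw [h6, h5] at h4
        have h7 : rc (S.a e) ⟨c, h1⟩ = (σ (some (e, false)))⁻¹ * (σ (some (e, false)) *
          rc (S.a e) ⟨c, h1⟩ * (σ (some (e, false)))⁻¹) * σ (some (e, false)) := by group
        rw [h7, ← h4]
        group }
  obtain ⟨r, g, hr⟩ := hS.ext R F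
  have hvtx : ∀ w (y : S.G w), rc w y = (g w)⁻¹ * r y * g w := by
    intro w y
    have h1 := hr.vtx w y y.2
    have h2 : F.r w y = rc w y := by
      show (if h : (y : Γ) ∈ S.G w then rc w ⟨y, h⟩ else 1) = rc w y
      rw [dif_pos y.2]
    rw [← h2, h1]
  have hedg : ∀ e, (σ (some (e, false)))⁻¹ * σ (some (e, true)) =
      (g (S.a e))⁻¹ * r (S.s e) * g (S.b e) := fun e => hr.edg e
  refine ⟨r, fun e => e.elim (σ none * (g x)⁻¹) fun e => σ (some (e, false)) * (g (S.a e))⁻¹,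
    fun w => (g w)⁻¹, ?_, ?_, ?_⟩
  · rintro (_ | e) ⟨y, hy⟩
    · have h1 : y = 1 := hy
      subst h1
      show rv none 1 = _ * r 1 * _⁻¹
      rw [map_one, map_one, mul_one, mul_inv_cancel]
    · have h1 := S.Ca e hy
      have h3 : (1 : Γ)⁻¹ * y * 1 ∈ S.G (S.a e) := by
        rw [inv_one, one_mul, mul_one]; exact h1
      have h4 : rv (some e) ⟨y, hy⟩ = σ (some (e, false)) * rc (S.a e) ⟨(1 : Γ)⁻¹ * y * 1, h3⟩ *
          (σ (some (e, false)))⁻¹ := hc (some (e, false)) y hy hy h3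
      have h6 : (⟨(1 : Γ)⁻¹ * y * 1, h3⟩ : S.G (S.a e)) = ⟨y, h1⟩ := by
        apply Subtype.ext
        show (1 : Γ)⁻¹ * y * 1 = y
        rw [inv_one, one_mul, mul_one]
      rw [h4, h6, hvtx]
      show _ = (σ (some (e, false)) * (g (S.a e))⁻¹) * r y * (σ (some (e, false)) * (g (S.a e))⁻¹)⁻¹
      group
  · intro w y
    rw [hvtx]
    group
  · rintro (_ | ⟨e, _ | _⟩)
    · show σ none = (σ none * (g x)⁻¹) * r 1 * ((g x)⁻¹)⁻¹
      rw [map_one]
      group
    · show σ (some (e, false)) = (σ (some (e, false)) * (g (S.a e))⁻¹) * r 1 * ((g (S.a e))⁻¹)⁻¹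
      rw [map_one]
      group
    · show σ (some (e, true)) = (σ (some (e, false)) * (g (S.a e))⁻¹) * r (S.s e) *
        ((g (S.b e))⁻¹)⁻¹
      have h1 : σ (some (e, true)) = σ (some (e, false)) *
        ((σ (some (e, false)))⁻¹ * σ (some (e, true))) := by group
      rw [h1, hedg]
      group

end

section Main

variable {g : ℕ} {Γ F : Type} [Group Γ] [Field F] [Algebra (ZMod 2) F]
    {ρ : Γ →* Matrix.SpecialLinearGroup (Fin 2) F} {V C E : Type}
    {gv : V → Subgroup Γ} {mc : C → Subgroup Γ} {vt : E → V} {ct : E → C} {s : E → Γ}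
    {ee : E → Subgroup Γ} {v0 : V}

/-- LEMMA X for splittings in gauge form.  No cylinder group `mc c0` has a nontrivial homomorphism
`lam` to `ℤ` which is trivial on all edge groups at `c0` and whose kernel contains an element `m`
with `ρ m ≠ 1`. -/
theorem frameS (hg : 2 ≤ g) (h : XS g Γ F ρ) [Finite V] [Finite C] [Finite E]
    (hgen : PGen gv mc vt ct s v0) (hU1 : GUQ Q1 gv mc vt ct s ee) (hU2 : GUQ Q2 gv mc vt ct s ee)
    (hgv : ∀ v, (gv v).FG) (hmc : ∀ c, (mc c).FG)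
    (hee : ∀ e, ∀ x ∈ ee e, x ∈ gv (vt e) ∧ (s e)⁻¹ * x * s e ∈ mc (ct e))
    (c0 : C) (hcomm : ∀ x ∈ mc c0, ∀ y ∈ mc c0, x * y = y * x)
    (lam : mc c0 →* Multiplicative ℤ) (x1 : mc c0) (hx1 : lam x1 ≠ 1)
    (hle : ∀ e x, x ∈ ee e → ∀ hc : ct e = c0, ∀ h2 : (s e)⁻¹ * x * s e ∈ mc c0,
      lam ⟨(s e)⁻¹ * x * s e, h2⟩ = 1)
    (m : mc c0) (hm : lam m = 1) (hm1 : ρ m ≠ 1) : False := by
  obtain ⟨k0, t0, hkt0, hk0⟩ := norm_hom lam x1 hx1
  have hex : ∀ c, ∃ (k : mc c →* Multiplicative ℤ) (t : mc c), (∀ x, t * x = x * t) ∧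
      (∀ x, k (x * t ^ (-(Multiplicative.toAdd (k x)))) = 1) ∧
      (c = c0 → k t = Multiplicative.ofAdd 1) ∧ (c ≠ c0 → t = 1) ∧
      (∀ e x, x ∈ ee e → ct e = c → ∀ h2 : (s e)⁻¹ * x * s e ∈ mc c,
        k ⟨(s e)⁻¹ * x * s e, h2⟩ = 1) ∧
      (∀ hm' : (m : Γ) ∈ mc c, c = c0 → k ⟨m, hm'⟩ = 1) := by
    intro c
    by_cases hc : c = c0
    · subst hc
      refine ⟨k0, t0, fun x => Subtype.ext (hcomm _ t0.2 _ x.2), ?_, fun _ => hkt0,
        fun hc => absurd rfl hc, ?_, ?_⟩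
      · intro x
        rw [map_mul, map_zpow, hkt0]
        apply Multiplicative.toAdd.injective
        simp
      · intro e x hx hct h2
        exact hk0 _ (hle e x hx hct h2)
      · intro hm' _
        exact hk0 _ hm
    · exact ⟨1, 1, fun x => by rw [one_mul, mul_one], fun x => rfl, fun hc' => absurd hc' hc,
        fun _ => rfl, fun _ _ _ _ _ => rfl, fun _ _ => rfl⟩
  choose k t htc hkt hk1 ht1 hke hkm using hex
  set mc' : C → Subgroup Γ := fun c => (k c).ker.map (mc c).subtype with hmc'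
  have hmcm : ∀ c, ∀ x : mc c, k c x = 1 → (x : Γ) ∈ mc' c := fun c x hx => ⟨x, hx, rfl⟩
  have hmcm' : ∀ c, ∀ x ∈ mc' c, ∃ h : x ∈ mc c, k c ⟨x, h⟩ = 1 := by
    rintro c _ ⟨x, hx, rfl⟩
    exact ⟨x.2, hx⟩
  -- the subgroups are finitely generated
  have hmcfg : ∀ c, (mc' c).FG := by
    intro c
    have : Group.FG (mc c) := (Group.fg_iff_subgroup_fg _).2 (hmc c)
    let φ : mc c →* Γ := MonoidHom.mk' (fun x =>
      ((x * (t c) ^ (-(Multiplicative.toAdd (k c x))) : mc c) : Γ)) (by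
        intro x y
        show ((x * y * (t c) ^ (-(Multiplicative.toAdd (k c (x * y)))) : mc c) : Γ) =
          ((x * (t c) ^ (-(Multiplicative.toAdd (k c x))) : mc c) : Γ) *
          ((y * (t c) ^ (-(Multiplicative.toAdd (k c y))) : mc c) : Γ)
        rw [← Subgroup.coe_mul]
        congr 1
        rw [map_mul, toAdd_mul, neg_add, zpow_add]
        have h3 : Commute (t c) y := htc c y
        have h4 : Commute (t c ^ (-(Multiplicative.toAdd (k c x)))) y := h3.zpow_left _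
        calc x * y * (t c ^ (-Multiplicative.toAdd (k c x)) *
              t c ^ (-Multiplicative.toAdd (k c y)))
            = x * (y * t c ^ (-Multiplicative.toAdd (k c x))) *
              t c ^ (-Multiplicative.toAdd (k c y)) := by simp only [mul_assoc]
          _ = x * (t c ^ (-Multiplicative.toAdd (k c x)) * y) *
              t c ^ (-Multiplicative.toAdd (k c y)) := by rw [h4.eq]
          _ = _ := by simp only [mul_assoc])
    have h1 : mc' c = φ.range := by
      apply le_antisymm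
      · intro x hx
        obtain ⟨h2, h3⟩ := hmcm' c x hx
        refine ⟨⟨x, h2⟩, ?_⟩
        show (((⟨x, h2⟩ : mc c) * (t c) ^ (-(Multiplicative.toAdd (k c ⟨x, h2⟩))) : mc c) : Γ) = x
        rw [h3, toAdd_one, neg_zero, zpow_zero, mul_one]
      · rintro _ ⟨x, rfl⟩
        exact hmcm c _ (hkt c x)
    rw [h1, ← Group.fg_iff_subgroup_fg]
    infer_instance
  obtain ⟨p, hp⟩ : ∃ p : V ⊕ C → Γ, ∀ a, Pa gv mc' vt ct s (Sum.inl v0) a (p a) :=
    ⟨fun a => (hgen.conn gv mc' a).choose, fun a => (hgen.conn gv mc' a).choose_spec⟩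
  have hLfg := loop_fg p hp hgv hmcfg
  set L := Loop gv mc' vt ct s (Sum.inl v0) with hL
  have hconj : ∀ {a b : V ⊕ C} {γ : Γ}, Pa gv mc' vt ct s a b γ → p a * γ * (p b)⁻¹ ∈ L :=
    fun {a b γ} h => (hp a).conj (hp b) h
  have hkt1 : k c0 (t c0) = Multiplicative.ofAdd 1 := hk1 c0 rfl
  set N : Set L := {n | ∃ x : mc c0, k c0 x = 1 ∧
    (n : Γ) = p (Sum.inr c0) * (x : Γ) * (p (Sum.inr c0))⁻¹} with hN
  have hmL : p (Sum.inr c0) * m * (p (Sum.inr c0))⁻¹ ∈ L :=
    hconj (Pa.cyl c0 _ (hmcm c0 ⟨m, m.2⟩ (hkm c0 m.2 rfl)))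
  have hext : ∀ (Q : Type) [Group Q], GUQ Q gv mc vt ct s ee → ∀ (f : L →* Q) (u : Q),
      (∀ n ∈ N, u * f n = f n * u) →
      ∃ f' : Γ →* Q, (∀ g : L, f' g = f g) ∧
        f' (p (Sum.inr c0) * t c0 * (p (Sum.inr c0))⁻¹) = u := by
    classical
    intro Q _ hUQ f u hu
    obtain ⟨f', hf', hf't⟩ := ext_frameQ hL hUQ k t htc hmcm hmcm' hkt
      (fun e x hx => ⟨(hee e x hx).2, hke (ct e) e x hx rfl _⟩) p hp f
      (fun c => if c = c0 then u else 1) (by
        intro c x hx hxL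
        by_cases hc : c = c0
        · subst hc
          rw [if_pos rfl]
          exact hu ⟨_, hxL⟩ ⟨x, hx, rfl⟩
        · rw [if_neg hc, one_mul, mul_one])
    exact ⟨f', hf', (hf't c0 hkt1).trans (if_pos rfl)⟩
  refine lemXS hg h L ((Group.fg_iff_subgroup_fg _).2 hLfg) N
    (p (Sum.inr c0) * t c0 * (p (Sum.inr c0))⁻¹) ⟨_, hmL⟩
    ⟨m, hkm c0 m.2 rfl, rfl⟩ ?_ ?_ ?_ (fun f u hu => hext Q1 hU1 f u hu)
    (fun f u hu => hext Q2 hU2 f u hu)
  · intro h1
    apply hm1
    have h1 : ρ (p (Sum.inr c0) * m * (p (Sum.inr c0))⁻¹) = 1 := h1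
    rw [map_mul, map_mul, map_inv] at h1
    have h2 := congrArg (fun x => (ρ (p (Sum.inr c0)))⁻¹ * x * ρ (p (Sum.inr c0))) h1
    simpa [mul_assoc] using h2
  · rintro n ⟨x, hx, hn⟩
    rw [hn]
    have h1 : (t c0 : Γ) * x = x * t c0 := congrArg Subtype.val (htc c0 x)
    calc p (Sum.inr c0) * ↑(t c0) * (p (Sum.inr c0))⁻¹ * (p (Sum.inr c0) * ↑x *
          (p (Sum.inr c0))⁻¹) = p (Sum.inr c0) * (↑(t c0) * ↑x) * (p (Sum.inr c0))⁻¹ := by group
      _ = p (Sum.inr c0) * (↑x * ↑(t c0)) * (p (Sum.inr c0))⁻¹ := by rw [h1]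
      _ = _ := by group
  · set H := Subgroup.closure ((L : Set Γ) ∪ {p (Sum.inr c0) * t c0 * (p (Sum.inr c0))⁻¹}) with hH
    have hLH : L ≤ H := by
      intro x hx
      exact Subgroup.subset_closure (Or.inl hx)
    have hth : ∀ c, p (Sum.inr c) * t c * (p (Sum.inr c))⁻¹ ∈ H := by
      intro c
      by_cases hc : c = c0
      · subst hc
        exact Subgroup.subset_closure (Or.inr rfl)
      · rw [ht1 c hc, Subgroup.coe_one, mul_one, mul_inv_cancel]
        exact one_mem _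
    have h1 := hgen (fun v => {g | g * (p (Sum.inl v))⁻¹ ∈ H})
      (fun c => {g | g * (p (Sum.inr c))⁻¹ ∈ H})
      (by
        show 1 * (p (Sum.inl v0))⁻¹ ∈ H
        rw [one_mul]
        exact inv_mem (hLH (hp _)))
      (by
        intro v g hg x hx
        show g * x * (p (Sum.inl v))⁻¹ ∈ H
        have h2 : g * x * (p (Sum.inl v))⁻¹ =
          (g * (p (Sum.inl v))⁻¹) * (p (Sum.inl v) * x * (p (Sum.inl v))⁻¹) := by group
        rw [h2]
        exact mul_mem hg (hLH (hconj (Pa.vert v x hx))))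
      (by
        intro c g hg x hx
        show g * x * (p (Sum.inr c))⁻¹ ∈ H
        have h2 : g * x * (p (Sum.inr c))⁻¹ =
          (g * (p (Sum.inr c))⁻¹) * (p (Sum.inr c) *
            (((⟨x, hx⟩ : mc c) * (t c) ^ (-(Multiplicative.toAdd (k c ⟨x, hx⟩))) : mc c) : Γ) *
            (p (Sum.inr c))⁻¹) * (p (Sum.inr c) * t c * (p (Sum.inr c))⁻¹) ^
            (Multiplicative.toAdd (k c ⟨x, hx⟩)) := by
          rw [conj_zpow, Subgroup.coe_mul, Subgroup.coe_zpow]
          group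
        rw [h2]
        exact mul_mem (mul_mem hg (hLH (hconj (Pa.cyl c _ (hmcm c _ (hkt c _))))))
          (zpow_mem (hth c) _))
      (by
        intro e g hg
        show g * s e * (p (Sum.inr (ct e)))⁻¹ ∈ H
        have h2 : g * s e * (p (Sum.inr (ct e)))⁻¹ = (g * (p (Sum.inl (vt e)))⁻¹) *
          (p (Sum.inl (vt e)) * s e * (p (Sum.inr (ct e)))⁻¹) := by group
        rw [h2]
        exact mul_mem hg (hLH (hconj (Pa.edge e))))
      (by
        intro e g hg
        show g * (s e)⁻¹ * (p (Sum.inl (vt e)))⁻¹ ∈ H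
        have h2 : g * (s e)⁻¹ * (p (Sum.inl (vt e)))⁻¹ = (g * (p (Sum.inr (ct e)))⁻¹) *
          (p (Sum.inl (vt e)) * s e * (p (Sum.inr (ct e)))⁻¹)⁻¹ := by group
        rw [h2]
        exact mul_mem hg (inv_mem (hLH (hconj (Pa.edge e)))))
    rw [eq_top_iff]
    intro g _
    have h2 : g * (p (Sum.inl v0))⁻¹ ∈ H := h1.1 v0 g
    have h3 : g = (g * (p (Sum.inl v0))⁻¹) * p (Sum.inl v0) := by group
    rw [h3]
    exact mul_mem h2 (hLH (hp _))

/-- LEMMA X for groups with the same numbers of representations as a closed surface group of genus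
`g ≥ 2` -/
theorem LX_of_XS (hg : 2 ≤ g) (h : XS g Γ F ρ) : LX ρ := by
  intro S hS hfgV hfgE x hcomm lam x1 hx1 ha hb m hm hm1
  refine frameS hg h (b_gen S x hS) (b_upQ S x hS (ZMod 2)) (b_upQ S x hS (DualNumber (ZMod 2)))
    ?_ hfgV (b_ee S x) x hcomm lam x1 hx1 ?_ m hm hm1
  · rintro (_ | e)
    · exact Subgroup.FG.bot
    · exact hfgE e
  · rintro (_ | ⟨e, _ | _⟩) y hy hc h2
    · have h1 : y = 1 := hy
      subst h1
      have h3 : (⟨(bs S none)⁻¹ * 1 * bs S none, h2⟩ : S.G x) = 1 := by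
        apply Subtype.ext
        show (1 : Γ)⁻¹ * 1 * 1 = 1
        rw [inv_one, one_mul, mul_one]
      rw [h3, map_one]
    · have h3 : y ∈ S.G x := by
        have h4 : (1 : Γ)⁻¹ * y * 1 ∈ S.G x := h2
        rwa [inv_one, one_mul, mul_one] at h4
      have h5 : (⟨(bs S (some (e, false)))⁻¹ * y * bs S (some (e, false)), h2⟩ : S.G x) =
          ⟨y, h3⟩ := by
        apply Subtype.ext
        show (1 : Γ)⁻¹ * y * 1 = y
        rw [inv_one, one_mul, mul_one]
      rw [h5]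
      exact ha e hc y hy h3
    · exact hb e hc y hy h2

end Main

end Pool.Agent.SuX
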